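import Pool.Agent.Lib.MP_305fdd_al.F2.W.Stm3
import Pool.Agent.Lib.MP_305fdd_al.F2.D.Defs

/-!
# MP_305fdd_al, F_2 project, section N: the non-regular divisorial points are finitely many, and the
generic class

Everything is proved here from `S_F` (section W).  `Nrm w` : `w` takes the value `1`.
-/

set_option autoImplicit false

namespace Pool.Agent.F2N

open Pool.Agent.F2Ch Pool.Agent.F2 Pool.Agent.F2W Pool.Agent.F2D

/-- `w` is normalised -/
def Nrm {K : Type} [Field K] (w : K → ℤ) : Prop := ∃ f, f ≠ 0 ∧ w f = 1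

/-- N1: up to proportionality only finitely many divisorial points are not regular. -/
theorem finite_irreg (hF : S_F) (p : ℕ) [Fact p.Prime] (k K : Type) [Field k] [CharP k p]
    [PerfectRing k p] [Field K] [Algebra k K] (n : ℕ) (t : Fin n → K) (ht : FracGen k t)
    (b : Fin (p ^ 3) → K) (ρ0 : Fin (p ^ 3) → K → K) (hb : IsPB p b ρ0) (φ : K → K)
    (hφ : IsPinv p φ) (h1 : φ 1 = 1) :
    {w : K → ℤ | InZ k p φ w ∧ Nrm w ∧ ¬ Reg k p φ t w}.Finite := by
  by_contra hinf
  have hinf' : {w : K → ℤ | InZ k p φ w ∧ Nrm w ∧ ¬ Reg k p φ t w}.Infinite := hinf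
  let e := hinf'.natEmbedding
  obtain ⟨i, hi⟩ := hF p k K n t ht b ρ0 hb φ hφ h1 (fun i => (e i : K → ℤ))
    (fun i j hij => e.injective (Subtype.ext hij)) (fun i => (e i).2.1) (fun i => (e i).2.2.1)
  exact (e i).2.2.2 hi

/-- a class which is not on any of finitely many lines -/
theorem exists_class {ι : Type} {S : Set ι} (hS : S.Finite) (E : ι → Set (ℤ × ℤ))
    (hE : ∀ i ∈ S, ∀ a ∈ E i, ∀ b ∈ E i, a.1 * b.2 = a.2 * b.1) :
    ∃ n : ℤ, ∀ i ∈ S, ∀ c ∈ E i, c ≠ 0 → c.1 * n ≠ c.2 * 1 := by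
  have hfin : (⋃ i ∈ S, {n : ℤ | ∃ c ∈ E i, c ≠ 0 ∧ c.1 * n = c.2 * 1}).Finite := by
    refine hS.biUnion fun i hi => Set.Subsingleton.finite ?_
    rintro n ⟨c, hc, hc0, h1⟩ n' ⟨c', hc', hc0', h1'⟩
    have h2 : c.1 ≠ 0 := by
      intro h
      apply hc0
      rw [h, zero_mul, mul_one] at h1
      exact Prod.ext h h1.symm
    have h2' : c'.1 ≠ 0 := by
      intro h
      apply hc0'
      rw [h, zero_mul, mul_one] at h1'
      exact Prod.ext h h1'.symm
    have h3 := hE i hi c hc c' hc'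
    have h4 : c.1 * c'.1 * (n' - n) = 0 := by linear_combination h3 + c.1 * h1' - c'.1 * h1
    have h5 := (mul_eq_zero.mp h4).resolve_left (mul_ne_zero h2 h2')
    linarith
  obtain ⟨n, hn⟩ := hfin.exists_notMem
  refine ⟨n, fun i hi c hc hc0 h => hn ?_⟩
  simp only [Set.mem_iUnion]
  exact ⟨i, hi, c, hc, hc0, h⟩

/-- THE GENERIC CLASS.  `X` is the set of excluded points (the order along the reducible locus);
at all other normalised points the classes of the elliptic elements are pairwise dependent.  There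
is a class `a = (1, m)` such that all points of class `a`, not in `X`, are regular, and all their
elliptic elements have classes which are dependent with `a`. -/
theorem generic (hF : S_F) (p : ℕ) [Fact p.Prime] (k K : Type) [Field k] [CharP k p]
    [PerfectRing k p] [Field K] [Algebra k K] (n : ℕ) (t : Fin n → K) (ht : FracGen k t)
    (b : Fin (p ^ 3) → K) (ρ0 : Fin (p ^ 3) → K → K) (hb : IsPB p b ρ0) (φ : K → K)
    (hφ : IsPinv p φ) (h1 : φ 1 = 1) (Λ : Type) [Group Λ] (T : Λ → K)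
    (cl : Λ →* Multiplicative (ℤ × ℤ)) (X : Set (K → ℤ))
    (hL1 : ∀ w : K → ℤ, InZ k p φ w → Nrm w → w ∉ X → ∀ l l', 0 ≤ w (T l) → 0 ≤ w (T l') →
      Dpd (cl l) (cl l')) :
    ∃ m : ℤ, ∀ w : K → ℤ, InZ k p φ w → Nrm w → w ∉ X →
      (∃ l, 0 ≤ w (T l) ∧ cl l ≠ 1 ∧ Dpd (cl l) (Multiplicative.ofAdd (1, m))) →
      Reg k p φ t w ∧ ∀ l, 0 ≤ w (T l) → Dpd (cl l) (Multiplicative.ofAdd (1, m)) := by
  have hfin := finite_irreg hF p k K n t ht b ρ0 hb φ hφ h1
  obtain ⟨m, hm⟩ := exists_class (hfin.subset (Set.sdiff_subset (t := X)))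
    (fun w => {c : ℤ × ℤ | ∃ l, 0 ≤ w (T l) ∧ (cl l).toAdd = c}) (by
      rintro w ⟨⟨hw, hn, hr⟩, hX⟩ _ ⟨l, hl, rfl⟩ _ ⟨l', hl', rfl⟩
      exact hL1 w hw hn hX l l' hl hl')
  refine ⟨m, fun w hw hn hX => ?_⟩
  rintro ⟨l, hl, hne, hd⟩
  have hne' : (cl l).toAdd ≠ 0 := by
    intro h
    apply hne
    apply Multiplicative.toAdd.injective
    rw [h, toAdd_one]
  constructor
  · by_contra hr
    exact hm w ⟨⟨hw, hn, hr⟩, hX⟩ _ ⟨l, hl, rfl⟩ hne' hd
  · intro l' hl'
    have h2 := hL1 w hw hn hX l l' hl hl'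
    simp only [Dpd, toAdd_ofAdd] at h2 hd ⊢
    have h3 : (cl l).toAdd.1 ≠ 0 := by
      intro h
      apply hne'
      rw [h, zero_mul, mul_one] at hd
      exact Prod.ext h hd.symm
    have h4 : (cl l).toAdd.1 * ((cl l').toAdd.1 * m - (cl l').toAdd.2 * 1) = 0 := by
      linear_combination (cl l').toAdd.1 * hd - h2
    have h5 := (mul_eq_zero.mp h4).resolve_left h3
    linarith

/-! ## Real valuations with cyclic value group -/

/-- a nontrivial compatible real valuation with values in `ℤ γ` is a positive multiple of a normalised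
one -/
theorem exists_norm {k K : Type} [Field k] [Field K] [Algebra k K] (p : ℕ) (φ : K → K)
    (v : K → ℝ) (hv : InZ k p φ v) (γ : ℝ) (hγ : ∀ f, ∃ n : ℤ, v f = n * γ)
    (h0 : ∃ f, v f ≠ 0) :
    ∃ (w : K → ℤ) (c : ℝ), 0 < c ∧ InZ k p φ w ∧ Nrm w ∧ ∀ f, v f = c * w f := by
  obtain ⟨f0, hf0⟩ := h0
  have hγ0 : γ ≠ 0 := by
    rintro rfl
    obtain ⟨n, hn⟩ := hγ f0
    rw [mul_zero] at hn
    exact hf0 hn
  choose N hN using hγ
  -- the values form a subgroup of `ℤ`
  have hNmul : ∀ x y, x ≠ 0 → y ≠ 0 → N (x * y) = N x + N y := by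
    intro x y hx hy
    have h := hv.isv.mul x y hx hy
    rw [hN, hN x, hN y, ← add_mul] at h
    exact_mod_cast mul_right_cancel₀ hγ0 h
  have hN0 : N 0 = 0 := by
    have h := hv.isv.zero
    rw [hN] at h
    exact_mod_cast (mul_eq_zero.mp h).resolve_right hγ0
  have hN1 : N 1 = 0 := by
    have h := hNmul 1 1 one_ne_zero one_ne_zero
    rw [one_mul] at h
    linarith
  have hNinv : ∀ x, x ≠ 0 → N x⁻¹ = - N x := by
    intro x hx
    have h := hNmul x x⁻¹ hx (inv_ne_zero hx)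
    rw [mul_inv_cancel₀ hx, hN1] at h
    linarith
  let H : AddSubgroup ℤ :=
    { carrier := {n | ∃ x, x ≠ 0 ∧ N x = n}
      add_mem' := by
        rintro _ _ ⟨x, hx, rfl⟩ ⟨y, hy, rfl⟩
        exact ⟨x * y, mul_ne_zero hx hy, hNmul x y hx hy⟩
      zero_mem' := ⟨1, one_ne_zero, hN1⟩
      neg_mem' := by
        rintro _ ⟨x, hx, rfl⟩
        exact ⟨x⁻¹, inv_ne_zero hx, hNinv x hx⟩ }
  obtain ⟨e0, he0⟩ := Int.subgroup_cyclic H
  have hf00 : f0 ≠ 0 := by
    rintro rfl
    exact hf0 hv.isv.zero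
  have hNf0 : N f0 ≠ 0 := by
    intro h
    apply hf0
    rw [hN, h, Int.cast_zero, zero_mul]
  -- a generator `e` such that `e * γ` is positive
  obtain ⟨e, he, hpos⟩ : ∃ e : ℤ, H = AddSubgroup.closure {e} ∧ 0 < (e : ℝ) * γ := by
    have hne : (e0 : ℝ) * γ ≠ 0 := by
      intro h
      have h2 : e0 = 0 := by exact_mod_cast (mul_eq_zero.mp h).resolve_right hγ0
      have h3 : N f0 ∈ H := ⟨f0, hf00, rfl⟩
      rw [he0, h2, AddSubgroup.closure_singleton_zero, AddSubgroup.mem_bot] at h3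
      exact hNf0 h3
    rcases lt_or_gt_of_ne hne with h | h
    · refine ⟨-e0, ?_, ?_⟩
      · rw [he0]
        apply le_antisymm
        · rw [AddSubgroup.closure_le, Set.singleton_subset_iff]
          simp
        · rw [AddSubgroup.closure_le, Set.singleton_subset_iff]
          exact neg_mem (AddSubgroup.subset_closure (Set.mem_singleton _))
      · push_cast
        linarith
    · exact ⟨e0, he0, h⟩
  have hdiv : ∀ f, ∃ n : ℤ, N f = n * e := by
    intro f
    by_cases hf : f = 0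
    · exact ⟨0, by rw [hf, hN0, zero_mul]⟩
    · have h3 : N f ∈ H := ⟨f, hf, rfl⟩
      rw [he, AddSubgroup.mem_closure_singleton] at h3
      obtain ⟨n, hn⟩ := h3
      exact ⟨n, by rw [← hn, smul_eq_mul]⟩
  choose w hw using hdiv
  have hvw : ∀ f, v f = ((e : ℝ) * γ) * w f := by
    intro f
    rw [hN, hw]
    push_cast
    ring
  have hle : ∀ a b : ℤ, a ≤ b ↔ ((e : ℝ) * γ) * a ≤ ((e : ℝ) * γ) * b := by
    intro a b
    rw [mul_le_mul_iff_right₀ hpos]
    exact Int.cast_le.symm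
  have heq : ∀ a b : ℤ, ((e : ℝ) * γ) * a = ((e : ℝ) * γ) * b → a = b := by
    intro a b h
    exact_mod_cast mul_left_cancel₀ hpos.ne' h
  refine ⟨w, (e : ℝ) * γ, hpos, ⟨⟨?_, ?_, ?_⟩, ?_, ?_⟩, ?_, hvw⟩
  · apply heq
    rw [← hvw, hv.isv.zero]
    simp
  · intro x y hx hy
    apply heq
    rw [← hvw, hv.isv.mul x y hx hy, hvw, hvw]
    push_cast
    ring
  · intro x y hx hy hxy
    rw [hle]
    have h := hv.isv.add x y hx hy hxy
    rcases min_choice (w x) (w y) with h2 | h2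
    · rw [h2, ← hvw, ← hvw]
      refine le_trans (le_min le_rfl ?_) h
      rw [hvw, hvw, ← hle]
      exact h2 ▸ min_le_right _ _
    · rw [h2, ← hvw, ← hvw]
      refine le_trans (le_min ?_ le_rfl) h
      rw [hvw, hvw, ← hle]
      exact h2 ▸ min_le_left _ _
  · intro c
    apply heq
    rw [← hvw, hv.triv c]
    simp
  · intro f hf
    rw [hle, ← hvw]
    have h := hv.compat f hf
    refine h.trans (le_of_eq ?_)
    rw [hvw (φ f), nsmul_eq_mul, nsmul_eq_mul]
    push_cast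
    ring
  · have h3 : e ∈ H := by
      rw [he]
      exact AddSubgroup.subset_closure (Set.mem_singleton _)
    obtain ⟨x, hx, hxe⟩ := h3
    refine ⟨x, hx, ?_⟩
    apply heq
    rw [← hvw, hN, hxe]
    simp

end Pool.Agent.F2N
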