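import Pool.Agent.Lib.MP_305fdd_al.F2.N.KK
import Pool.Agent.Lib.MP_305fdd_al.F2.N.Main
import Pool.Agent.Lib.MP_305fdd_al.F2.ChMain
import Pool.Agent.Lib.MP_305fdd_al.F2.RF.Defs

/-!
# MP_305fdd_al, F_2: flags at a divisorial point and places of the residue field (helper70)

`exists_plc`: every compatible flag `V` at `c * w` (`w` normalised discrete, residue field `κ`) with an element `t` whose residue is
transcendental (`V (P(t)) = 0` for all `P ≠ 0`) is `V f = (c w f, δ C(ac f) + b w f)`, `C` a normalised compatible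
place of `κ`.
-/

set_option autoImplicit false
set_option linter.unusedSectionVars false

namespace Pool.Agent.F2Ch

open Polynomial

namespace Dict

/-! ## Residues as a ring homomorphism -/

section
variable {K Γ : Type} [Field K] [AddCommGroup Γ] [LinearOrder Γ] [IsOrderedAddMonoid Γ]

theorem ge_add {v : K → Γ} (hv : IsV v) {f g : K} (hf : Ge v 0 f) (hg : Ge v 0 g) :
    Ge v 0 (f + g) := by
  by_cases h : f + g = 0
  · exact Or.inl h
  rcases hf with rfl | hf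
  · rw [zero_add]; exact hg
  rcases hg with rfl | hg
  · rw [add_zero]; exact Or.inr hf
  by_cases hf0 : f = 0
  · subst hf0; rw [zero_add]; exact Or.inr hg
  by_cases hg0 : g = 0
  · subst hg0; rw [add_zero]; exact Or.inr hf
  exact Or.inr ((le_min hf hg).trans (hv.add f g hf0 hg0 h))

theorem ge_mul {v : K → Γ} (hv : IsV v) {f g : K} (hf : Ge v 0 f) (hg : Ge v 0 g) :
    Ge v 0 (f * g) := by
  by_cases hf0 : f = 0
  · left; rw [hf0, zero_mul]
  by_cases hg0 : g = 0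
  · left; rw [hg0, mul_zero]
  right
  rw [hv.mul f g hf0 hg0]
  exact add_nonneg (hf.resolve_left hf0) (hg.resolve_left hg0)

variable {k κ : Type} [Field k] [Algebra k K] [Field κ] [Algebra k κ]

theorem lc_mul {v : K → Γ} (hv : IsV v) {r : ℕ} {x : Fin r → K} {ac : K → κ}
    (hac : IsAC k v x ac) {f g : K} (hf : Ge v 0 f) (hg : Ge v 0 g) :
    lc v ac 0 (f * g) = lc v ac 0 f * lc v ac 0 g := by
  unfold lc
  by_cases hf0 : f = 0
  · simp [hf0]
  by_cases hg0 : g = 0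
  · simp [hg0]
  have hf' := hf.resolve_left hf0
  have hg' := hg.resolve_left hg0
  by_cases hvf : v f = 0
  · by_cases hvg : v g = 0
    · rw [if_pos ⟨mul_ne_zero hf0 hg0, by rw [hv.mul f g hf0 hg0, hvf, hvg, add_zero]⟩,
        if_pos ⟨hf0, hvf⟩, if_pos ⟨hg0, hvg⟩, hac.mul]
    · rw [if_neg (c := g ≠ 0 ∧ v g = 0) (fun h => hvg h.2), mul_zero, if_neg]
      rintro ⟨-, h⟩
      rw [hv.mul f g hf0 hg0, hvf, zero_add] at h
      exact hvg h
  · rw [if_neg (c := f ≠ 0 ∧ v f = 0) (fun h => hvf h.2), zero_mul, if_neg]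
    rintro ⟨-, h⟩
    rw [hv.mul f g hf0 hg0] at h
    have h1 : 0 < v f := lt_of_le_of_ne hf' (Ne.symm hvf)
    have h2 : 0 < v f + v g := add_pos_of_pos_of_nonneg h1 hg'
    exact h2.ne' h

theorem lc_alg {v : K → Γ} (ht : Triv k v) {r : ℕ} {x : Fin r → K} {ac : K → κ}
    (hac : IsAC k v x ac) (c : k) : lc v ac 0 (algebraMap k K c) = algebraMap k κ c := by
  unfold lc
  by_cases hc : c = 0
  · simp [hc]
  · rw [if_pos ⟨by simpa using hc, ht c⟩, hac.alg]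

/-- polynomials of one element -/
theorem lc_poly {v : K → Γ} (hv : IsV v) (ht : Triv k v) {r : ℕ} {x : Fin r → K}
    {ac : K → κ} (hac : IsAC k v x ac) {f : K} (hf : Ge v 0 f) (P : k[X]) :
    Ge v 0 (aeval f P) ∧ lc v ac 0 (aeval f P) = aeval (lc v ac 0 f) P := by
  induction P using Polynomial.induction_on with
  | C a =>
    rw [aeval_C, aeval_C]
    exact ⟨Or.inr (ht a).ge, lc_alg ht hac a⟩
  | add p q hp hq =>
    rw [map_add, map_add]
    refine ⟨ge_add hv hp.1 hq.1, ?_⟩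
    rw [hac.add 0 _ _ hp.1 hq.1, hp.2, hq.2]
  | monomial n a hp =>
    rw [pow_succ, ← mul_assoc, map_mul (aeval f), map_mul (aeval (lc v ac 0 f)), aeval_X, aeval_X]
    refine ⟨ge_mul hv hp.1 hf, ?_⟩
    rw [lc_mul hv hac hp.1 hf, hp.2]

end

/-! ## Change of the value group for bases and angular components -/

section
variable {k K Γ Γ' κ : Type} [Field k] [Field K] [Algebra k K] [AddCommGroup Γ] [LinearOrder Γ]
  [IsOrderedAddMonoid Γ] [AddCommGroup Γ'] [LinearOrder Γ'] [IsOrderedAddMonoid Γ'] [Field κ]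
  [Algebra k κ]

theorem map_wt (h : Γ →+ Γ') {r : ℕ} (u : Fin r → Γ) (m : Fin r → ℤ) :
    h (wt u m) = wt (fun i => h (u i)) m := by
  unfold wt
  rw [map_sum]
  simp only [map_zsmul]

theorem map_vb (h : Γ →+ Γ') (hm : StrictMono h) {v : K → Γ} {r : ℕ} {x : Fin r → K}
    {ex : K → Fin r → ℤ} (hvb : IsVB v x ex) : IsVB (fun f => h (v f)) x ex := by
  refine ⟨hvb.ne, fun i => ?_, fun m hm' => ?_, fun f hf => ?_, hvb.zero⟩
  · have := hm (hvb.pos i)
    rwa [map_zero] at this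
  · rw [← map_wt h (fun i => v (x i)) m] at hm'
    apply hvb.indep
    apply hm.injective
    rw [hm', map_zero]
  · show h (v f) = _
    rw [hvb.gen f hf, map_wt]

theorem map_ge (h : Γ →+ Γ') (hm : StrictMono h) {v : K → Γ} {γ : Γ} {f : K} :
    Ge (fun f => h (v f)) (h γ) f ↔ Ge v γ f := by
  unfold Ge
  rw [hm.le_iff_le]

theorem map_lc (h : Γ →+ Γ') (hm : StrictMono h) {v : K → Γ} {ac : K → κ} {γ : Γ} {f : K} :
    lc (fun f => h (v f)) ac (h γ) f = lc v ac γ f := by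
  classical
  unfold lc
  have : (f ≠ 0 ∧ h (v f) = h γ) ↔ (f ≠ 0 ∧ v f = γ) := by rw [hm.injective.eq_iff]
  by_cases h1 : f ≠ 0 ∧ v f = γ
  · rw [if_pos h1, if_pos (this.2 h1)]
  · rw [if_neg h1, if_neg (fun h2 => h1 (this.1 h2))]

theorem map_ac (h : Γ →+ Γ') (hm : StrictMono h) {v : K → Γ} {r : ℕ} {x : Fin r → K}
    {ac : K → κ} (hac : IsAC k v x ac) : IsAC k (fun f => h (v f)) x ac := by
  refine ⟨hac.zero, hac.ne, hac.mul, hac.alg, hac.x_one, fun c hc => ?_, fun γ f g hf hg => ?_⟩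
  · obtain ⟨f, h1, h2, h3⟩ := hac.surj c hc
    exact ⟨f, h1, by show h (v f) = 0; rw [h2, map_zero], h3⟩
  · by_cases hγ : ∃ γ0, h γ0 = γ
    · obtain ⟨γ0, rfl⟩ := hγ
      rw [map_lc h hm, map_lc h hm, map_lc h hm]
      exact hac.add γ0 f g ((map_ge h hm).1 hf) ((map_ge h hm).1 hg)
    · have h1 : ∀ f, lc (fun f => h (v f)) ac γ f = 0 := by
        intro f
        unfold lc
        rw [if_neg]
        rintro ⟨-, h2⟩
        exact hγ ⟨_, h2⟩
      rw [h1, h1, h1, add_zero]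

end

/-- multiplication by a positive real number -/
def mulH (c : ℝ) : ℤ →+ ℝ where
  toFun n := c * n
  map_zero' := by rw [Int.cast_zero, mul_zero]
  map_add' m n := by rw [Int.cast_add, mul_add]

theorem mulH_mono {c : ℝ} (hc : 0 < c) : StrictMono (mulH c) := by
  intro m n hmn
  exact mul_lt_mul_of_pos_left (by exact_mod_cast hmn) hc

/-- the residual property after change of the value group -/
theorem map_res {K κ : Type} [Field K] [Field κ] {w : K → ℤ} {ac : K → κ} {φ : K → K}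
    {φb : κ → κ} {c : ℝ} (hc : 0 < c)
    (hb : ∀ f, Ge w 0 f → Ge w 0 (φ f) ∧ lc w ac 0 (φ f) = φb (lc w ac 0 f)) (f : K)
    (hf : Ge (fun f => mulH c (w f)) 0 f) : Ge (fun f => mulH c (w f)) 0 (φ f) ∧
      lc (fun f => mulH c (w f)) ac 0 (φ f) = φb (lc (fun f => mulH c (w f)) ac 0 f) := by
  have e : (0 : ℝ) = mulH c 0 := (map_zero _).symm
  rw [e] at hf ⊢
  rw [map_ge _ (mulH_mono hc)] at hf ⊢
  rw [map_lc _ (mulH_mono hc), map_lc _ (mulH_mono hc)]
  exact hb f hf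

/-- a normalised discrete valuation has the basis `x 0` -/
theorem vb_of_nrm {K : Type} [Field K] {w : K → ℤ} (hw : IsV w) {x : Fin 1 → K} (hx : x 0 ≠ 0)
    (h1 : w (x 0) = 1) : IsVB w x (fun f _ => w f) := by
  have hi : ∀ i : Fin 1, i = 0 := fun i => Subsingleton.elim _ _
  refine ⟨fun i => by rw [hi i]; exact hx, fun i => by rw [hi i, h1]; exact one_pos,
    fun m hm => ?_, fun f _ => ?_, ?_⟩
  · unfold wt at hm
    rw [Fin.sum_univ_one] at hm
    simp only [h1, smul_eq_mul, mul_one] at hm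
    funext i
    rw [hi i, hm]
    rfl
  · unfold wt
    rw [Fin.sum_univ_one]
    simp only [h1, smul_eq_mul, mul_one]
  · funext i
    exact hw.zero

/-- the second components of a rank two flag are discrete on the kernel of the first -/
theorem disc_two (w0 w1 : ℤ) (γ0 γ1 : ℝ) (hg : ∃ s t : ℤ, s * w0 + t * w1 = 1) :
    ∃ γ : ℝ, ∀ n0 n1 : ℤ, n0 * w0 + n1 * w1 = 0 → ∃ m : ℤ, n0 * γ0 + n1 * γ1 = m * γ := by
  obtain ⟨s, t, hst⟩ := hg
  refine ⟨w1 * γ0 - w0 * γ1, fun n0 n1 hn => ⟨n0 * t - n1 * s, ?_⟩⟩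
  -- `n0 = m w1`, `n1 = - m w0` with `m = n0 t - n1 s`
  have e0 : n0 = (n0 * t - n1 * s) * w1 := by linear_combination (-n0) * hst + s * hn
  have e1 : n1 = - ((n0 * t - n1 * s) * w0) := by linear_combination (-n1) * hst + t * hn
  have f0 : (n0 : ℝ) = ((n0 * t - n1 * s : ℤ) : ℝ) * w1 := by exact_mod_cast e0
  have f1 : (n1 : ℝ) = - (((n0 * t - n1 * s : ℤ) : ℝ) * w0) := by exact_mod_cast e1
  calc (n0 : ℝ) * γ0 + n1 * γ1 = (((n0 * t - n1 * s : ℤ) : ℝ) * w1) * γ0 +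
        (- (((n0 * t - n1 * s : ℤ) : ℝ) * w0)) * γ1 := by rw [← f0, ← f1]
    _ = ((n0 * t - n1 * s : ℤ) : ℝ) * (w1 * γ0 - w0 * γ1) := by ring

/-- DISCRETENESS: the second components of a flag at `c w`, on the kernel of `w`. -/
theorem disc (p : ℕ) [Fact p.Prime] {k K : Type} [Field k] [CharP k p] [PerfectRing k p] [Field K]
    [Algebra k K] {n : ℕ} (g : Fin n → K) (hgen : FracGen k g) (b0 : Fin (p ^ 3) → K)
    (ρ0 : Fin (p ^ 3) → K → K) (hpb : IsPB p b0 ρ0) (φ : K → K) (hφ : IsPinv p φ) (h1 : φ 1 = 1)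
    (w : K → ℤ) (hwn : ∃ u, u ≠ 0 ∧ w u = 1) (c : ℝ) (hc : 0 < c)
    (V : K → ℝ ×ₗ ℝ) (hV : InZ k p φ V) (hfst : ∀ f, (ofLex (V f)).1 = c * w f)
    (t : K) (ht : ∀ P : k[X], P ≠ 0 → aeval t P ≠ 0 ∧ V (aeval t P) = 0) :
    ∃ γ : ℝ, ∀ f, f ≠ 0 → w f = 0 → ∃ m : ℤ, (ofLex (V f)).2 = m * γ := by
  obtain ⟨r, s, κ, _, _, x, ex, ac, φb, N, L, hch, hrs, htr, -, -⟩ :=
    t_X2 p k K (ℝ ×ₗ ℝ) n g hgen 3 b0 ρ0 hpb φ hφ h1 V hV
  -- `s ≠ 0`
  have hs : s ≠ 0 := by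
    rintro rfl
    have hVt : V t = 0 := by
      have := (ht X X_ne_zero).2
      rwa [aeval_X] at this
    have halg : Algebra.IsAlgebraic k κ := by
      rw [← trdeg_eq_zero_iff, htr, Nat.cast_zero]
    obtain ⟨P, hP, hP0⟩ := halg.isAlgebraic (lc V ac 0 t)
    have h2 := (lc_poly hV.isv hV.triv hch.isac (Or.inr hVt.ge : Ge V 0 t) P).2
    obtain ⟨h3, h4⟩ := ht P hP
    rw [hP0] at h2
    unfold lc at h2
    rw [if_pos ⟨h3, h4⟩] at h2
    exact hch.isac.ne _ h3 h2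
  -- the value group is generated by at most two elements
  have hvf : ∀ f, f ≠ 0 → V f = ∑ i, ex f i • V (x i) := fun f hf => hch.vb.gen f hf
  have hfst' : ∀ f, f ≠ 0 → (c * w f : ℝ) = ∑ i, (ex f i : ℝ) * (c * w (x i)) := by
    intro f hf
    have h2 : (ofLex (V f)).1 = (ofLex (∑ i, ex f i • V (x i))).1 := by rw [← hvf f hf]
    rw [hfst f] at h2
    rw [h2]
    have : ∀ z : Fin r → ℝ ×ₗ ℝ, (ofLex (∑ i, z i)).1 = ∑ i, (ofLex (z i)).1 := by
      intro z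
      let F : (ℝ ×ₗ ℝ) →+ ℝ :=
        { toFun := fun z => (ofLex z).1, map_zero' := rfl, map_add' := fun _ _ => rfl }
      exact map_sum F z Finset.univ
    rw [this]
    refine Finset.sum_congr rfl fun i _ => ?_
    have h3 : (ofLex (ex f i • V (x i))).1 = ex f i • (ofLex (V (x i))).1 := rfl
    rw [h3, hfst, zsmul_eq_mul]
  have hsnd' : ∀ f, f ≠ 0 → (ofLex (V f)).2 = ∑ i, (ex f i : ℝ) * (ofLex (V (x i))).2 := by
    intro f hf
    have h2 : (ofLex (V f)).2 = (ofLex (∑ i, ex f i • V (x i))).2 := by rw [← hvf f hf]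
    rw [h2]
    have : ∀ z : Fin r → ℝ ×ₗ ℝ, (ofLex (∑ i, z i)).2 = ∑ i, (ofLex (z i)).2 := by
      intro z
      let F : (ℝ ×ₗ ℝ) →+ ℝ :=
        { toFun := fun z => (ofLex z).2, map_zero' := rfl, map_add' := fun _ _ => rfl }
      exact map_sum F z Finset.univ
    show (ofLex (∑ i, ex f i • V (x i))).2 = _
    rw [this]
    refine Finset.sum_congr rfl fun i _ => ?_
    have h3 : (ofLex (ex f i • V (x i))).2 = ex f i • (ofLex (V (x i))).2 := rfl
    rw [h3, zsmul_eq_mul]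
  have hw' : ∀ f, f ≠ 0 → w f = ∑ i, ex f i * w (x i) := by
    intro f hf
    have h2 := hfst' f hf
    have h3 : ∑ i, (ex f i : ℝ) * (c * w (x i)) = c * ((∑ i, ex f i * w (x i) : ℤ) : ℝ) := by
      push_cast
      rw [Finset.mul_sum]
      refine Finset.sum_congr rfl fun i _ => by ring
    rw [h3] at h2
    exact_mod_cast mul_left_cancel₀ hc.ne' h2
  obtain ⟨u, hu, hwu⟩ := hwn
  have hr : r = 0 ∨ r = 1 ∨ r = 2 := by omega
  rcases hr with rfl | rfl | rfl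
  · exfalso
    have h2 := hw' u hu
    rw [Fin.sum_univ_zero, hwu] at h2
    exact one_ne_zero h2
  · refine ⟨0, fun f hf hwf => ⟨0, ?_⟩⟩
    have h2 := hw' f hf
    rw [Fin.sum_univ_one, hwf] at h2
    have h3 := hw' u hu
    rw [Fin.sum_univ_one, hwu] at h3
    have h4 : ex f 0 = 0 := by
      rcases mul_eq_zero.1 h2.symm with h | h
      · exact h
      · rw [h, mul_zero] at h3
        exact absurd h3 one_ne_zero
    rw [hsnd' f hf, Fin.sum_univ_one, h4]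
    simp
  · have h3 := hw' u hu
    rw [Fin.sum_univ_two, hwu] at h3
    obtain ⟨γ, hγ⟩ := disc_two (w (x 0)) (w (x 1)) (ofLex (V (x 0))).2 (ofLex (V (x 1))).2
      ⟨ex u 0, ex u 1, h3.symm⟩
    refine ⟨γ, fun f hf hwf => ?_⟩
    have h2 := hw' f hf
    rw [Fin.sum_univ_two, hwf] at h2
    obtain ⟨m, hm⟩ := hγ _ _ h2.symm
    exact ⟨m, by rw [hsnd' f hf, Fin.sum_univ_two, hm]⟩

/-- THE DICTIONARY: flags at `c w` with a transcendental residue are given by places of the residue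
field. -/
theorem exists_plc (p : ℕ) [Fact p.Prime] {k K κ : Type} [Field k] [CharP k p] [PerfectRing k p]
    [Field K] [Algebra k K] [Field κ] [Algebra k κ] {n : ℕ} (g : Fin n → K) (hgen : FracGen k g)
    (b0 : Fin (p ^ 3) → K) (ρ0 : Fin (p ^ 3) → K → K) (hpb : IsPB p b0 ρ0) (φ : K → K)
    (hφ : IsPinv p φ) (h1 : φ 1 = 1) (w : K → ℤ) (hw : InZ k p φ w) (x : Fin 1 → K)
    (hx : x 0 ≠ 0) (hwx : w (x 0) = 1) (ac : K → κ) (hac : IsAC k w x ac) (φb : κ → κ)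
    (hb : ∀ f, Ge w 0 f → Ge w 0 (φ f) ∧ lc w ac 0 (φ f) = φb (lc w ac 0 f))
    (c : ℝ) (hc : 0 < c) (V : K → ℝ ×ₗ ℝ) (hV : InZ k p φ V)
    (hfst : ∀ f, (ofLex (V f)).1 = c * w f) (hnt : ∃ f, f ≠ 0 ∧ w f = 0 ∧ (ofLex (V f)).2 ≠ 0)
    (t : K) (ht : ∀ P : k[X], P ≠ 0 → aeval t P ≠ 0 ∧ V (aeval t P) = 0) :
    ∃ (C : κ → ℤ) (δ b : ℝ), F2RF.Plc k C ∧ Compat p φb C ∧ 0 < δ ∧
      (∀ f, f ≠ 0 → V f = toLex (c * (w f : ℝ), δ * (C (ac f) : ℝ) + b * (w f : ℝ))) ∧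
      ∀ P : k[X], P ≠ 0 → C (aeval (ac t) P) = 0 := by
  have hvb := vb_of_nrm hw.isv hx hwx
  have hinz := KK.map_inz (mulH c) (mulH_mono hc).monotone hw
  obtain ⟨Q, b, hQ, hQT, hQC, hQf, hQV⟩ := KK.dec p k K κ ℝ (fun f => mulH c (w f)) hinz.isv
    hinz.triv 1 x _ ac (map_vb (mulH c) (mulH_mono hc) hvb) (map_ac (mulH c) (mulH_mono hc) hac)
    φ hφ φb (map_res hc hb) ℝ V hV.isv hV.triv hV.compat hfst
  have hQf' : ∀ f, f ≠ 0 → w f = 0 → Q (ac f) = (ofLex (V f)).2 := by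
    intro f hf hwf
    refine hQf f hf ?_
    show mulH c (w f) = 0
    rw [hwf, map_zero]
  obtain ⟨γ, hγ⟩ := disc p g hgen b0 ρ0 hpb φ hφ h1 w ⟨x 0, hx, hwx⟩ c hc V hV hfst t ht
  have hQγ : ∀ z, ∃ m : ℤ, Q z = m * γ := by
    intro z
    by_cases hz : z = 0
    · exact ⟨0, by rw [hz, hQ.zero, Int.cast_zero, zero_mul]⟩
    · obtain ⟨f, hf, hwf, hacf⟩ := hac.surj z hz
      obtain ⟨m, hm⟩ := hγ f hf hwf
      exact ⟨m, by rw [← hacf, hQf' f hf hwf, hm]⟩
  have hQne : ∃ z, Q z ≠ 0 := by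
    obtain ⟨f, hf, hwf, hne⟩ := hnt
    exact ⟨ac f, by rw [hQf' f hf hwf]; exact hne⟩
  obtain ⟨C, δ, hδ, hC, hCn, hQC'⟩ := F2N.exists_norm p φb Q ⟨hQ, hQT, hQC⟩ γ hQγ hQne
  have hwt : ∀ f, wt b (fun _ : Fin 1 => w f) = b 0 * (w f : ℝ) := by
    intro f
    unfold wt
    rw [Fin.sum_univ_one, zsmul_eq_mul, mul_comm]
  refine ⟨C, δ, b 0, ⟨hC.isv, hC.triv, ?_⟩, hC.compat, hδ, fun f hf => ?_, fun P hP => ?_⟩
  · exact hCn
  · rw [hQV f hf, hQC', hwt]
    rfl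
  · -- the residue of `t`
    have hVt : V t = 0 := by
      have := (ht X X_ne_zero).2
      rwa [aeval_X] at this
    have hwt0 : ∀ f, V f = 0 → w f = 0 := by
      intro f hf
      have h2 := hfst f
      rw [hf] at h2
      have h3 : (0 : ℝ) = c * w f := h2
      rcases mul_eq_zero.1 h3.symm with h | h
      · exact absurd h hc.ne'
      · exact_mod_cast h
    have hwt := hwt0 t hVt
    have ht0 : t ≠ 0 := by
      have := (ht X X_ne_zero).1
      rwa [aeval_X] at this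
    obtain ⟨h3, h4⟩ := ht P hP
    have h5 := (lc_poly hw.isv hw.triv hac (Or.inr hwt.ge : Ge w 0 t) P).2
    have e1 : lc w ac 0 (aeval t P) = ac (aeval t P) := by
      unfold lc
      rw [if_pos ⟨h3, hwt0 _ h4⟩]
    have e2 : lc w ac 0 t = ac t := by
      unfold lc
      rw [if_pos ⟨ht0, hwt⟩]
    rw [e1, e2] at h5
    rw [← h5]
    have h6 := hQf' _ h3 (hwt0 _ h4)
    rw [h4, hQC'] at h6
    have h7 : δ * (C (ac (aeval t P)) : ℝ) = 0 := h6
    rcases mul_eq_zero.1 h7 with h | h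
    · exact absurd h hδ.ne'
    · exact_mod_cast h

end Dict

end Pool.Agent.F2Ch
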