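import Pool.Agent.Lib.MP_305fdd_al.F2.N.RFb
import Pool.Agent.Lib.MP_305fdd_al.F2.L.Glue

/-!
# MP_305fdd_al, F_2: the fields of `LocF` at the reducible locus, for `F2.Core` (helper70)
-/

set_option autoImplicit false

namespace Pool.Agent.F2

open Pool.Agent.F2Ch Pool.Agent.F2W Pool.Agent.F2RF

namespace Core

variable {p : ℕ} [Fact p.Prime] {k K Λ : Type} [Field k] [CharP k p] [IsAlgClosed k]
  [Field K] [Algebra k K] [Group Λ] (C : Core p k K Λ)

/-- all facts at `ord_R`, for an arbitrary nonzero class -/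
theorem rfields' {a : Multiplicative (ℤ × ℤ)} (ha : a ≠ 1) :
    F2L.RFields k p C.φ C.t (C.A a) C.RR where
  Rinz := C.Rinz
  Rdv := C.Rdv
  Rnn := C.Rnn
  Rpos := C.Rpos
  R9 := C.R9
  R7e := C.R7e a ha
  R7u := fun V V' hV hz hV' hz' => C.R7u ha V V' hV hz hV' hz'
  R7f := fun V hV hz => C.R7f V hV hz

/-- all facts at `ord_R`, for the class `(1, m)` (the hypothesis `hR` of `F2L.locF`) -/
theorem rfields (m : ℤ) : F2L.RFields k p C.φ C.t (F2L.AS C.cl C.T m)
    (fun f => (C.R f : ℝ)) := by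
  rw [F2L.AS_eq]
  refine C.rfields' (a := Multiplicative.ofAdd (1, m)) ?_
  intro h
  have h1 : ((1 : ℤ), m) = (0, 0) := congrArg Multiplicative.toAdd h
  exact one_ne_zero (congrArg Prod.fst h1)

end Core

end Pool.Agent.F2
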