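import Pool.Agent.Lib.MP_305fdd_al.F2.Ch.K1
import Pool.Agent.Lib.MP_305fdd_al.F2.ChApi

/-!
# MP_305fdd_al, F_2 project: composites and the decomposition of flags, without frames (helper70)

`comp` and `dec` are K1 and K2 of section C for `IsVB`, `IsAC` (data of a `Chart`) instead of a `Frame`
(the proofs are those of K1 and K2). `InZ.map`: change of the value group.
-/

set_option autoImplicit false
set_option linter.unusedSectionVars false

namespace Pool.Agent.F2Ch

namespace KK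

open MvPolynomial

theorem comp (p : ℕ) (k K κ : Type) [Field k] [Field K]
    [Algebra k K] [Field κ] [Algebra k κ] (Γ : Type) [AddCommGroup Γ] [LinearOrder Γ]
    [IsOrderedAddMonoid Γ] (v : K → Γ) (hv : IsV v) (ht : Triv k v) (r : ℕ) (x : Fin r → K)
    (ex : K → Fin r → ℤ) (ac : K → κ) (hvb : IsVB v x ex) (ha : IsAC k v x ac) (φ : K → K)
    (hφ : IsPinv p φ) (hc : Compat p φ v) (φb : κ → κ)
    (hb : ∀ f, Ge v 0 f → Ge v 0 (φ f) ∧ lc v ac 0 (φ f) = φb (lc v ac 0 f))
    (Γ' : Type) [AddCommGroup Γ'] [LinearOrder Γ'] [IsOrderedAddMonoid Γ'] (Q : κ → Γ')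
    (hQ : IsV Q) (hQT : Triv k Q) (hQC : Compat p φb Q) :
    InZ k p φ (fun f => (toLex (v f, Q (ac f)) : Γ ×ₗ Γ')) := by
  have hacz : ∀ f g, f ≠ 0 → g ≠ 0 → f + g ≠ 0 → v f ≤ v g →
      (toLex (v f, Q (ac f)) : Γ ×ₗ Γ') ≤ toLex (v (f + g), Q (ac (f + g))) ∨
      (toLex (v g, Q (ac g)) : Γ ×ₗ Γ') ≤ toLex (v (f + g), Q (ac (f + g))) := by
    intro f g hf hg hfg hle
    have h1 : v f ≤ v (f + g) := by
      have := hv.add f g hf hg hfg
      rwa [min_eq_left hle] at this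
    rcases h1.lt_or_eq with h2 | h2
    · exact Or.inl ((Prod.Lex.toLex_le_toLex).2 (Or.inl h2))
    · have h3 := ha.add (v f) f g (Or.inr le_rfl) (Or.inr hle)
      unfold lc at h3
      rw [if_pos ⟨hfg, h2.symm⟩, if_pos ⟨hf, rfl⟩] at h3
      by_cases h4 : v g = v f
      · rw [if_pos ⟨hg, h4⟩] at h3
        have h5 := hQ.add (ac f) (ac g) (ha.ne f hf) (ha.ne g hg) (by
          rw [← h3]; exact ha.ne _ hfg)
        rw [← h3] at h5
        rcases min_le_iff.1 h5 with h6 | h6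
        · exact Or.inl ((Prod.Lex.toLex_le_toLex).2 (Or.inr ⟨h2, h6⟩))
        · exact Or.inr ((Prod.Lex.toLex_le_toLex).2 (Or.inr ⟨h4.trans h2, h6⟩))
      · rw [if_neg (fun h => h4 h.2), add_zero] at h3
        refine Or.inl ((Prod.Lex.toLex_le_toLex).2 (Or.inr ⟨h2, ?_⟩))
        simp only [h3]
        exact le_rfl
  refine ⟨⟨?_, ?_, ?_⟩, ?_, ?_⟩
  · simp only [hv.zero, ha.zero, hQ.zero]
    rfl
  · intro f g hf hg
    simp only [hv.mul f g hf hg, ha.mul, hQ.mul _ _ (ha.ne f hf) (ha.ne g hg)]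
    rfl
  · intro f g hf hg hfg
    rw [min_le_iff]
    rcases le_total (v f) (v g) with h | h
    · exact hacz f g hf hg hfg h
    · have := hacz g f hg hf (by rwa [add_comm]) h
      rw [add_comm g f] at this
      exact this.symm
  · intro c
    simp only [ht c, ha.alg, hQT c]
    rfl
  · intro f hf
    have h1 := hc f hf
    show (toLex (v f, Q (ac f)) : Γ ×ₗ Γ') ≤ toLex (p • v (φ f), p • Q (ac (φ f)))
    rcases h1.lt_or_eq with h2 | h2
    · exact (Prod.Lex.toLex_le_toLex).2 (Or.inl h2)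
    · refine (Prod.Lex.toLex_le_toLex).2 (Or.inr ⟨h2, ?_⟩)
      have hf0 : f ≠ 0 := by
        rintro rfl
        apply hf
        have h := hφ.add 0 0
        rw [add_zero] at h
        simpa using h
      set z : K := ∏ i, x i ^ ex (φ f) i with hz
      have hz0 : z ≠ 0 := Finset.prod_ne_zero_iff.2 fun j _ => zpow_ne_zero _ (hvb.ne j)
      have hvz : v z = v (φ f) := by
        rw [hz, k1_prod hv x hvb.ne, ← hvb.gen _ hf]
      have hac1 : ac 1 = 1 := by simpa using ha.alg 1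
      have hacpow : ∀ (a : K) (n : ℕ), ac (a ^ n) = ac a ^ n := by
        intro a n
        induction n with
        | zero => simp [hac1]
        | succ n ih => rw [pow_succ, pow_succ, ha.mul, ih]
      have hacinv : ∀ a : K, a ≠ 0 → ac a⁻¹ = (ac a)⁻¹ := by
        intro a h0
        have := ha.mul a a⁻¹
        rw [mul_inv_cancel₀ h0, hac1] at this
        exact eq_inv_of_mul_eq_one_right this.symm
      have haczpow : ∀ (i : Fin r) (n : ℤ), ac (x i ^ n) = 1 := by
        intro i n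
        cases n with
        | ofNat n =>
          simp only [Int.ofNat_eq_natCast, zpow_natCast]
          rw [hacpow, ha.x_one, one_pow]
        | negSucc n =>
          rw [zpow_negSucc, hacinv _ (pow_ne_zero _ (hvb.ne i)), hacpow, ha.x_one, one_pow, inv_one]
      have hacprod : ∀ s : Finset (Fin r), ac (∏ i ∈ s, x i ^ ex (φ f) i) = 1 := by
        classical
        intro s
        induction s using Finset.induction_on with
        | empty => simp [hac1]
        | insert i s hi ih => rw [Finset.prod_insert hi, ha.mul, ih, haczpow, one_mul]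
      have hacz1 : ac z = 1 := hacprod Finset.univ
      have hzp : z ^ p ≠ 0 := pow_ne_zero _ hz0
      set g : K := f * (z ^ p)⁻¹ with hg
      have hg0 : g ≠ 0 := mul_ne_zero hf0 (inv_ne_zero hzp)
      have hvg : v g = 0 := by
        rw [hg, hv.mul _ _ hf0 (inv_ne_zero hzp), k1_inv hv hzp, k1_pow hv hz0, hvz, h2]
        simp
      have hacg : ac g = ac f := by
        rw [hg, ha.mul, hacinv _ hzp, hacpow, hacz1, one_pow, inv_one, mul_one]
      have hφg : φ f = z * φ g := by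
        rw [← hφ.pow_mul]
        congr 1
        rw [hg]
        field_simp
      have hφg0 : φ g ≠ 0 := by
        intro h
        rw [h, mul_zero] at hφg
        exact hf hφg
      have hvφg : v (φ g) = 0 := by
        have h3 : v (φ f) = v z + v (φ g) := by
          rw [hφg]
          exact hv.mul _ _ hz0 hφg0
        rw [hvz] at h3
        simpa using h3
      have hacφg : ac (φ g) = ac (φ f) := by
        rw [hφg, ha.mul, hacz1, one_mul]
      have h4 := (hb g (Or.inr hvg.ge)).2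
      unfold lc at h4
      rw [if_pos ⟨hφg0, hvφg⟩, if_pos ⟨hg0, hvg⟩, hacφg, hacg] at h4
      have h5 := hQC (ac f) (by rw [← h4]; exact ha.ne _ hf)
      rwa [← h4] at h5

section V

variable {K Γ : Type} [Field K] [AddCommGroup Γ] [LinearOrder Γ] [IsOrderedAddMonoid Γ]
  {v : K → Γ}

private theorem k2_one (hv : IsV v) : v 1 = 0 := by
  have h := hv.mul 1 1 one_ne_zero one_ne_zero
  rw [mul_one] at h
  exact left_eq_add.1 h

private theorem k2_neg_one (hv : IsV v) : v (-1) = 0 := by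
  have h := hv.mul (-1) (-1) (neg_ne_zero.2 one_ne_zero) (neg_ne_zero.2 one_ne_zero)
  rw [neg_mul_neg, mul_one, k2_one hv] at h
  rcases lt_trichotomy (v (-1)) 0 with h1 | h1 | h1
  · exact absurd h.symm (add_neg h1 h1).ne
  · exact h1
  · exact absurd h (add_pos h1 h1).ne

private theorem k2_neg (hv : IsV v) (x : K) : v (-x) = v x := by
  by_cases hx : x = 0
  · rw [hx, neg_zero]
  · have h := hv.mul (-1) x (neg_ne_zero.2 one_ne_zero) hx
    rw [neg_one_mul, k2_neg_one hv, zero_add] at h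
    exact h

private theorem k2_inv (hv : IsV v) {x : K} (hx : x ≠ 0) : v x⁻¹ = -v x := by
  have h := hv.mul x x⁻¹ hx (inv_ne_zero hx)
  rw [mul_inv_cancel₀ hx, k2_one hv] at h
  exact (neg_eq_of_add_eq_zero_right h.symm).symm

private theorem k2_pow (hv : IsV v) {x : K} (hx : x ≠ 0) (n : ℕ) : v (x ^ n) = n • v x := by
  induction n with
  | zero => rw [pow_zero, zero_smul, k2_one hv]
  | succ n ih => rw [pow_succ, hv.mul _ _ (pow_ne_zero n hx) hx, ih, succ_nsmul]

private theorem k2_zpow (hv : IsV v) {x : K} (hx : x ≠ 0) (n : ℤ) : v (x ^ n) = n • v x := by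
  cases n with
  | ofNat n =>
    rw [Int.ofNat_eq_natCast, zpow_natCast, k2_pow hv hx, natCast_zsmul]
  | negSucc n =>
    rw [zpow_negSucc, k2_inv hv (pow_ne_zero _ hx), k2_pow hv hx, negSucc_zsmul]

private theorem k2_prod (hv : IsV v) {r : ℕ} {x : Fin r → K} (hx : ∀ i, x i ≠ 0)
    (m : Fin r → ℤ) (s : Finset (Fin r)) :
    v (∏ i ∈ s, x i ^ m i) = ∑ i ∈ s, m i • v (x i) := by
  classical
  induction s using Finset.induction_on with
  | empty => rw [Finset.prod_empty, Finset.sum_empty, k2_one hv]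
  | insert a s ha ih =>
    rw [Finset.prod_insert ha, Finset.sum_insert ha, hv.mul _ _ (zpow_ne_zero _ (hx a))
      (Finset.prod_ne_zero_iff.2 fun i _ => zpow_ne_zero _ (hx i)), ih, k2_zpow hv (hx a)]

end V

section L

variable {Γ Γ' : Type} [AddCommGroup Γ] [AddCommGroup Γ']

private def k2_snd (Γ Γ' : Type) [AddCommGroup Γ] [AddCommGroup Γ'] : (Γ ×ₗ Γ') →+ Γ' where
  toFun a := (ofLex a).2
  map_zero' := rfl
  map_add' _ _ := rfl

private theorem k2_snd_le [LinearOrder Γ] [LinearOrder Γ'] {a b : Γ ×ₗ Γ'} (h : a ≤ b)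
    (he : (ofLex a).1 = (ofLex b).1) : (ofLex a).2 ≤ (ofLex b).2 := by
  rcases Prod.Lex.le_iff.1 h with h | h
  · exact absurd he h.ne
  · exact h.2

private theorem k2_pos [LinearOrder Γ] [LinearOrder Γ'] {a : Γ ×ₗ Γ'} (h : 0 < (ofLex a).1) :
    0 < a := by
  refine Prod.Lex.lt_iff.2 (Or.inl ?_)
  exact h

end L

section A

variable {k K κ Γ : Type} [Field k] [Field K] [Algebra k K] [Field κ] [Algebra k κ]
  [AddCommGroup Γ] [LinearOrder Γ] [IsOrderedAddMonoid Γ] {v : K → Γ} {r : ℕ} {x : Fin r → K}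
  {ac : K → κ}

private theorem k2_lc {γ : Γ} {f : K} (hf : f ≠ 0) (h : v f = γ) : lc v ac γ f = ac f := by
  unfold lc
  rw [if_pos ⟨hf, h⟩]

private theorem k2_of_lc {γ : Γ} {f : K} (h : lc v ac γ f ≠ 0) :
    f ≠ 0 ∧ v f = γ ∧ lc v ac γ f = ac f := by
  by_cases h1 : f ≠ 0 ∧ v f = γ
  · exact ⟨h1.1, h1.2, k2_lc h1.1 h1.2⟩
  · refine absurd ?_ h
    unfold lc
    rw [if_neg h1]

private theorem k2_ac_one (ha : IsAC k v x ac) : ac 1 = 1 := by
  have h := ha.alg 1
  rwa [map_one, map_one] at h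

private theorem k2_ac_neg_one (ha : IsAC k v x ac) : ac (-1) = -1 := by
  have h := ha.alg (-1)
  rwa [map_neg, map_one, map_neg, map_one] at h

private theorem k2_ac_inv (ha : IsAC k v x ac) {f : K} (hf : f ≠ 0) : ac f⁻¹ = (ac f)⁻¹ := by
  have h := ha.mul f f⁻¹
  rw [mul_inv_cancel₀ hf, k2_ac_one ha] at h
  exact (inv_eq_of_mul_eq_one_right h.symm).symm

private theorem k2_ac_pow (ha : IsAC k v x ac) (f : K) (n : ℕ) : ac (f ^ n) = ac f ^ n := by
  induction n with
  | zero => rw [pow_zero, pow_zero, k2_ac_one ha]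
  | succ n ih => rw [pow_succ, pow_succ, ha.mul, ih]

private theorem k2_ac_x (ha : IsAC k v x ac) (hx : ∀ i, x i ≠ 0) (i : Fin r) (n : ℤ) :
    ac (x i ^ n) = 1 := by
  cases n with
  | ofNat n =>
    rw [Int.ofNat_eq_natCast, zpow_natCast, k2_ac_pow ha, ha.x_one, one_pow]
  | negSucc n =>
    rw [zpow_negSucc, k2_ac_inv ha (pow_ne_zero _ (hx i)), k2_ac_pow ha, ha.x_one, one_pow,
      inv_one]

private theorem k2_ac_prod (ha : IsAC k v x ac) (hx : ∀ i, x i ≠ 0) (m : Fin r → ℤ)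
    (s : Finset (Fin r)) : ac (∏ i ∈ s, x i ^ m i) = 1 := by
  classical
  induction s using Finset.induction_on with
  | empty => rw [Finset.prod_empty, k2_ac_one ha]
  | insert a s h ih => rw [Finset.prod_insert h, ha.mul, ih, k2_ac_x ha hx, one_mul]

/-- a finer valuation has the same value on elements of `v`-value zero with the same residue -/
private theorem k2_same {Γ' : Type} [AddCommGroup Γ'] [LinearOrder Γ'] [IsOrderedAddMonoid Γ']
    (hv : IsV v) (ha : IsAC k v x ac) {V : K → Γ ×ₗ Γ'} (hV : IsV V)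
    (hfst : ∀ f, (ofLex (V f)).1 = v f) {f g : K} (hf : f ≠ 0) (hg : g ≠ 0) (hvf : v f = 0)
    (hvg : v g = 0) (h : ac f = ac g) : V f = V g := by
  have hu0 : f * g⁻¹ ≠ 0 := mul_ne_zero hf (inv_ne_zero hg)
  have hvu : v (f * g⁻¹) = 0 := by
    rw [hv.mul _ _ hf (inv_ne_zero hg), k2_inv hv hg, hvf, hvg, neg_zero, add_zero]
  have hau : ac (f * g⁻¹) = 1 := by
    rw [ha.mul, k2_ac_inv ha hg, h, mul_inv_cancel₀ (ha.ne g hg)]
  have hV1 : V (f * g⁻¹) = 0 := by
    by_cases h1 : f * g⁻¹ + -1 = 0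
    · rw [eq_neg_of_add_eq_zero_left h1, neg_neg, k2_one hV]
    · have hn1 : (-1 : K) ≠ 0 := neg_ne_zero.2 one_ne_zero
      have h2 := ha.add 0 (f * g⁻¹) (-1) (Or.inr hvu.ge) (Or.inr (k2_neg_one hv).ge)
      rw [k2_lc hu0 hvu, k2_lc hn1 (k2_neg_one hv), hau, k2_ac_neg_one ha, add_neg_cancel] at h2
      have h3 : 0 ≤ v (f * g⁻¹ + -1) := by
        refine le_trans ?_ (hv.add _ _ hu0 hn1 h1)
        rw [hvu, k2_neg_one hv, min_self]
      have h4 : v (f * g⁻¹ + -1) ≠ 0 := by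
        intro h4
        rw [k2_lc h1 h4] at h2
        exact ha.ne _ h1 h2
      have h5 : 0 < V (f * g⁻¹ + -1) := by
        refine k2_pos ?_
        rw [hfst]
        exact lt_of_le_of_ne h3 h4.symm
      have h6 : 0 ≤ V (f * g⁻¹) := by
        have h7 := hV.add (f * g⁻¹ + -1) 1 h1 one_ne_zero (by
          rw [neg_add_cancel_right]
          exact hu0)
        rw [neg_add_cancel_right, k2_one hV, min_eq_right h5.le] at h7
        exact h7
      have h8 : V (f * g⁻¹) ≤ 0 := by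
        have e1 : f * g⁻¹ + -(f * g⁻¹ + -1) = 1 := by ring
        have h7 := hV.add (f * g⁻¹) (-(f * g⁻¹ + -1)) hu0 (neg_ne_zero.2 h1) (by
          rw [e1]
          exact one_ne_zero)
        rw [e1, k2_one hV, k2_neg hV] at h7
        rcases min_le_iff.1 h7 with h7 | h7
        · exact h7
        · exact absurd h7 (not_le.2 h5)
      exact le_antisymm h8 h6
  have h9 := hV.mul (f * g⁻¹) g hu0 hg
  rw [inv_mul_cancel_right₀ hg, hV1, zero_add] at h9
  exact h9

end A

open Classical in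
/-- decomposition of a flag -/
theorem dec (p : ℕ) (k K κ : Type) [Field k] [Field K]
    [Algebra k K] [Field κ] [Algebra k κ] (Γ : Type) [AddCommGroup Γ] [LinearOrder Γ]
    [IsOrderedAddMonoid Γ] (v : K → Γ) (hv : IsV v) (ht : Triv k v) (r : ℕ) (x : Fin r → K)
    (ex : K → Fin r → ℤ) (ac : K → κ) (hvb : IsVB v x ex) (ha : IsAC k v x ac) (φ : K → K)
    (hφ : IsPinv p φ) (φb : κ → κ)
    (hφb : ∀ f, Ge v 0 f → Ge v 0 (φ f) ∧ lc v ac 0 (φ f) = φb (lc v ac 0 f))
    (Γ' : Type) [AddCommGroup Γ'] [LinearOrder Γ'] [IsOrderedAddMonoid Γ'] (V : K → Γ ×ₗ Γ')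
    (hV : IsV V) (hVt : Triv k V) (hVc : Compat p φ V) (hfst : ∀ f, (ofLex (V f)).1 = v f) :
    ∃ (Q : κ → Γ') (b : Fin r → Γ'), IsV Q ∧ Triv k Q ∧ Compat p φb Q ∧
      (∀ f, f ≠ 0 → v f = 0 → Q (ac f) = (ofLex (V f)).2) ∧
      ∀ f, f ≠ 0 → V f = toLex (v f, Q (ac f) + wt b (ex f)) := by
  have hx := hvb.ne
  choose! L hL using ha.surj
  set Q : κ → Γ' := fun c => if c = 0 then 0 else (ofLex (V (L c))).2 with hQ
  have hQ0 : Q 0 = 0 := if_pos rfl
  have hQf : ∀ f, f ≠ 0 → v f = 0 → Q (ac f) = (ofLex (V f)).2 := by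
    intro f hf hvf
    have hc : ac f ≠ 0 := ha.ne f hf
    have h1 : Q (ac f) = (ofLex (V (L (ac f)))).2 := if_neg hc
    obtain ⟨h2, h3, h4⟩ := hL (ac f) hc
    rw [h1, k2_same hv ha hV hfst h2 hf h3 hvf h4]
  refine ⟨Q, fun i => (ofLex (V (x i))).2, ⟨hQ0, ?_, ?_⟩, ?_, ?_, hQf, ?_⟩
  · intro c c' hc hc'
    obtain ⟨h1, h2, h3⟩ := hL c hc
    obtain ⟨h1', h2', h3'⟩ := hL c' hc'
    have h4 := hQf (L c * L c') (mul_ne_zero h1 h1') (by rw [hv.mul _ _ h1 h1', h2, h2', add_zero])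
    rw [ha.mul, h3, h3', hV.mul _ _ h1 h1'] at h4
    have h5 := hQf (L c) h1 h2
    have h5' := hQf (L c') h1' h2'
    rw [h3] at h5
    rw [h3'] at h5'
    rw [h4, h5, h5']
    rfl
  · intro c c' hc hc' hcc
    obtain ⟨h1, h2, h3⟩ := hL c hc
    obtain ⟨h1', h2', h3'⟩ := hL c' hc'
    have h4 := ha.add 0 (L c) (L c') (Or.inr h2.ge) (Or.inr h2'.ge)
    rw [k2_lc h1 h2, k2_lc h1' h2', h3, h3'] at h4
    obtain ⟨h5, h6, h7⟩ := k2_of_lc (v := v) (ac := ac) (γ := 0) (f := L c + L c') (by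
      rw [h4]
      exact hcc)
    have h8 := hQf (L c + L c') h5 h6
    rw [← h7, h4] at h8
    have h9 := hQf (L c) h1 h2
    have h9' := hQf (L c') h1' h2'
    rw [h3] at h9
    rw [h3'] at h9'
    rw [h8, h9, h9']
    rcases min_le_iff.1 (hV.add _ _ h1 h1' h5) with h | h
    · exact (min_le_left _ _).trans (k2_snd_le h (by rw [hfst, hfst, h2, h6]))
    · exact (min_le_right _ _).trans (k2_snd_le h (by rw [hfst, hfst, h2', h6]))
  · intro c
    by_cases hc : c = 0
    · rw [hc, map_zero, hQ0]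
    · have h1 : algebraMap k K c ≠ 0 := by
        rw [Ne, map_eq_zero]
        exact hc
      have h2 := hQf (algebraMap k K c) h1 (ht c)
      rw [ha.alg, hVt c] at h2
      rw [h2]
      rfl
  · intro c hc
    have hφ0 : φ 0 = 0 := by
      have h := hφ.add 0 0
      rw [add_zero] at h
      exact left_eq_add.1 h
    have hlc0 : lc v ac 0 (0 : K) = 0 := by
      unfold lc
      rw [if_neg fun h => h.1 rfl]
    have hc0 : c ≠ 0 := by
      rintro rfl
      have h := (hφb 0 (Or.inl rfl)).2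
      rw [hφ0, hlc0] at h
      exact hc h.symm
    obtain ⟨h1, h2, h3⟩ := hL c hc0
    have h4 := (hφb (L c) (Or.inr h2.ge)).2
    rw [k2_lc h1 h2, h3] at h4
    obtain ⟨h5, h6, h7⟩ := k2_of_lc (v := v) (ac := ac) (γ := 0) (f := φ (L c)) (by
      rw [h4]
      exact hc)
    have h8 := hQf (L c) h1 h2
    have h9 := hQf (φ (L c)) h5 h6
    rw [h3] at h8
    rw [← h7, h4] at h9
    rw [h8, h9]
    have h10 := k2_snd_le (hVc (L c) h5) (by
      rw [hfst, h2]
      have : (ofLex (p • V (φ (L c)))).1 = p • (ofLex (V (φ (L c)))).1 := rfl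
      rw [this, hfst, h6, smul_zero])
    exact h10
  · intro f hf
    set z : K := ∏ i, x i ^ ex f i with hz
    have hz0 : z ≠ 0 := Finset.prod_ne_zero_iff.2 fun i _ => zpow_ne_zero _ (hx i)
    have hvz : v z = v f := by
      rw [hz, k2_prod hv hx, hvb.gen f hf]
      rfl
    have hg0 : f * z⁻¹ ≠ 0 := mul_ne_zero hf (inv_ne_zero hz0)
    have hvg : v (f * z⁻¹) = 0 := by
      rw [hv.mul _ _ hf (inv_ne_zero hz0), k2_inv hv hz0, hvz, add_neg_cancel]
    have hag : ac (f * z⁻¹) = ac f := by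
      rw [ha.mul, k2_ac_inv ha hz0, hz, k2_ac_prod ha hx, inv_one, mul_one]
    have h1 := hQf _ hg0 hvg
    rw [hag] at h1
    have h2 := hV.mul (f * z⁻¹) z hg0 hz0
    rw [inv_mul_cancel_right₀ hz0] at h2
    have h3 : (ofLex (V z)).2 = wt (fun i => (ofLex (V (x i))).2) (ex f) := by
      have h4 : k2_snd Γ Γ' (V z) = ∑ i, ex f i • k2_snd Γ Γ' (V (x i)) := by
        rw [hz, k2_prod hV hx, map_sum]
        simp only [map_zsmul]
      exact h4
    refine ofLex.injective (Prod.ext ?_ ?_)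
    · exact hfst f
    · show (ofLex (V f)).2 = Q (ac f) + wt (fun i => (ofLex (V (x i))).2) (ex f)
      rw [h1, ← h3, h2]
      rfl


/-! ## Change of the value group -/

theorem map_inz {k : Type} {p : ℕ} {K Γ Γ' : Type} [Field k] [Field K] [Algebra k K]
    [AddCommGroup Γ] [LinearOrder Γ] [IsOrderedAddMonoid Γ] [AddCommGroup Γ'] [LinearOrder Γ']
    [IsOrderedAddMonoid Γ'] (h : Γ →+ Γ') (hm : Monotone h) {φ : K → K} {V : K → Γ}
    (hV : InZ k p φ V) : InZ k p φ (fun f => h (V f)) := by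
  refine ⟨⟨?_, ?_, ?_⟩, ?_, ?_⟩
  · show h (V 0) = 0
    rw [hV.isv.zero, map_zero]
  · intro x y hx hy
    show h (V (x * y)) = h (V x) + h (V y)
    rw [hV.isv.mul x y hx hy, map_add]
  · intro x y hx hy hxy
    show min (h (V x)) (h (V y)) ≤ h (V (x + y))
    rw [← hm.map_min]
    exact hm (hV.isv.add x y hx hy hxy)
  · intro c
    show h (V (algebraMap k K c)) = 0
    rw [hV.triv c, map_zero]
  · intro f hf
    show h (V f) ≤ p • h (V (φ f))
    rw [← map_nsmul]
    exact hm (hV.compat f hf)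

/-- `(a, b) ↦ (c a, d b)` -/
def scl (c d : ℝ) : ℤ ×ₗ ℤ →+ ℝ ×ₗ ℝ where
  toFun z := toLex (c * (ofLex z).1, d * (ofLex z).2)
  map_zero' := by
    show toLex (c * ((0 : ℤ) : ℝ), d * ((0 : ℤ) : ℝ)) = 0
    rw [Int.cast_zero, mul_zero, mul_zero]
    rfl
  map_add' z w := by
    show toLex (c * (((ofLex z).1 + (ofLex w).1 : ℤ) : ℝ), d * (((ofLex z).2 + (ofLex w).2 : ℤ) : ℝ))
      = toLex (c * ((ofLex z).1 : ℝ), d * ((ofLex z).2 : ℝ)) +
        toLex (c * ((ofLex w).1 : ℝ), d * ((ofLex w).2 : ℝ))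
    rw [Int.cast_add, Int.cast_add, mul_add, mul_add]
    rfl

theorem scl_mono {c d : ℝ} (hc : 0 < c) (hd : 0 ≤ d) : Monotone (scl c d) := by
  intro z w hzw
  show toLex (c * ((ofLex z).1 : ℝ), d * ((ofLex z).2 : ℝ)) ≤
    toLex (c * ((ofLex w).1 : ℝ), d * ((ofLex w).2 : ℝ))
  rw [Prod.Lex.toLex_le_toLex]
  rcases Prod.Lex.le_iff.1 hzw with h | ⟨h, h'⟩
  · left
    exact mul_lt_mul_of_pos_left (by exact_mod_cast h) hc
  · right
    refine ⟨by rw [h], mul_le_mul_of_nonneg_left (by exact_mod_cast h') hd⟩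

end KK

end Pool.Agent.F2Ch
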