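import Pool.Agent.Lib.MP_305fdd_al.F2.W.Defs

/-!
# MP_305fdd_al, F_2, section W7/L7: existence of the direction `C_a` of class `a` at the reducible
locus (helper70)

`κ = k(R)` is the fraction field of the symmetric Laurent polynomials (`TorR`), `φ` the toric map.  For
`0 ≠ a ∈ ℤ²` the valuation is `v (j f) = - max {λ m : f_m ≠ 0}`, where `λ m = det (a, m) / gcd a`.
-/

set_option autoImplicit false

namespace Pool.Agent.F2W

open Pool.Agent.F2Ch Pool.Agent.F2 Pool.Agent.F2RF Polynomial

/-- existence half of W7: the place of class `a` of `k(R)`, its values on the coordinates `e_c` and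
on `k[R]` -/
def S_QE : Prop :=
  ∀ (p : ℕ) [Fact p.Prime], p ≠ 2 → ∀ (k κ : Type) [Field k] [CharP k p] [PerfectRing k p]
    [Field κ] [Algebra k κ] (j : Sy k →ₐ[k] κ) (φ : κ → κ), TorR p k j φ →
    ∀ a : ℤ × ℤ, a ≠ 0 → ∃ v : κ → ℤ, Plc k v ∧ Compat p φ v ∧
      (∀ P : k[X], P ≠ 0 → v (aeval (j (es k a)) P) = 0) ∧
      (∀ f : Sy k, f ≠ 0 → v (j f) ≤ 0) ∧
      ∀ c : ℤ × ℤ, v (j (es k c)) * (Int.gcd a.1 a.2 : ℤ) = - |a.1 * c.2 - a.2 * c.1|

namespace QE

theorem ee_coeff {k : Type} [Field k] (c m : ℤ × ℤ) :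
    (ee k c).coeff m = (if c = m then 1 else 0) + (if -c = m then 1 else 0) := by
  classical
  unfold ee
  rw [AddMonoidAlgebra.coeff_add, Finsupp.add_apply, AddMonoidAlgebra.coeff_single,
    AddMonoidAlgebra.coeff_single, Finsupp.single_apply, Finsupp.single_apply]

/-- elements of `Sy` are symmetric -/
theorem sym {k : Type} [Field k] (f : Sy k) (m : ℤ × ℤ) :
    (f : Lau k).coeff (-m) = (f : Lau k).coeff m := by
  let ι : Lau k →ₐ[k] Lau k :=
    (AddMonoidAlgebra.domCongr k k (AddEquiv.neg (ℤ × ℤ))).toAlgHom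
  have h1 : ∀ g : Lau k, ∀ n, (ι g).coeff n = g.coeff (-n) := by
    intro g n
    show ((AddMonoidAlgebra.domCongr k k (AddEquiv.neg (ℤ × ℤ))) g).coeff n = _
    rw [AddMonoidAlgebra.coeff_domCongr]
    rfl
  have h2 : Sy k ≤ AlgHom.equalizer ι (AlgHom.id k (Lau k)) := by
    unfold Sy
    rw [Algebra.adjoin_le_iff]
    rintro _ ⟨c, rfl⟩
    show ι (ee k c) = ee k c
    rw [← AddMonoidAlgebra.coeff_inj]
    ext n
    rw [h1, ee_coeff, ee_coeff, add_comm]
    congr 1
    · congr 1
      rw [neg_inj]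
    · congr 1
      exact propext neg_eq_iff_eq_neg.symm
  have h3 : ι (f : Lau k) = f := h2 f.2
  rw [← h1, h3]

/-- the expansion of a symmetric Laurent polynomial -/
theorem expan {k : Type} [Field k] (h2 : (2 : k) ≠ 0) (f : Sy k) :
    f = ∑ m ∈ (f : Lau k).coeff.support, ((f : Lau k).coeff m / 2) • es k m := by
  classical
  apply Subtype.ext
  rw [AddSubmonoidClass.coe_finsetSum]
  rw [← AddMonoidAlgebra.coeff_inj]
  ext n
  rw [AddMonoidAlgebra.coeff_sum, Finsupp.finsetSum_apply]
  have h3 : ∀ m, (((((f : Lau k).coeff m / 2) • es k m : Sy k) : Lau k)).coeff n =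
      (f : Lau k).coeff m / 2 * ((if m = n then 1 else 0) + (if -m = n then 1 else 0)) := by
    intro m
    show (((f : Lau k).coeff m / 2) • ee k m).coeff n = _
    rw [AddMonoidAlgebra.coeff_smul, Finsupp.smul_apply, ee_coeff, smul_eq_mul]
  simp only [h3, mul_add, mul_ite, mul_one, mul_zero, Finset.sum_add_distrib, Finset.sum_ite_eq']
  have h4 : ∀ m : ℤ × ℤ, (-m = n) = (m = -n) := fun m => propext neg_eq_iff_eq_neg
  simp only [h4, Finset.sum_ite_eq', Finsupp.mem_support_iff, sym]
  split_ifs with h5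
  · field_simp
    ring
  · push Not at h5
    rw [h5]
    simp

theorem sub {k : Type} [Field k] (h2 : (2 : k) ≠ 0) (P : Sy k → Prop)
    (h0 : P 0) (hadd : ∀ f g, P f → P g → P (f + g)) (hsmul : ∀ (c : k) f, P f → P (c • f))
    (f : Sy k) (he : ∀ m, (f : Lau k).coeff m ≠ 0 → P (es k m)) : P f := by
  classical
  rw [expan h2 f]
  have : ∀ S : Finset (ℤ × ℤ), S ⊆ (f : Lau k).coeff.support →
      P (∑ m ∈ S, ((f : Lau k).coeff m / 2) • es k m) := by
    intro S
    induction S using Finset.induction_on with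
    | empty => intro _; rw [Finset.sum_empty]; exact h0
    | insert m S hm ih =>
      intro hS
      rw [Finset.sum_insert hm]
      exact hadd _ _ (hsmul _ _ (he m (Finsupp.mem_support_iff.1
        (hS (Finset.mem_insert_self _ _))))) (ih ((Finset.subset_insert _ _).trans hS))
  exact this _ (Finset.Subset.refl _)

/-- the toric map on symmetric Laurent polynomials -/
theorem phi (p : ℕ) [Fact p.Prime] (hp2 : p ≠ 2) (k κ : Type) [Field k] [CharP k p]
    [PerfectRing k p] [Field κ] [Algebra k κ] (j : Sy k →ₐ[k] κ) (φ : κ → κ)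
    (hT : TorR p k j φ) (f : Sy k) :
    ∃ g : Sy k, φ (j f) = j g ∧ ∀ n, (g : Lau k).coeff n ^ p = (f : Lau k).coeff ((p : ℤ) • n) := by
  classical
  have hp : p.Prime := Fact.out
  have h2 : (2 : k) ≠ 0 := by
    intro h
    have h3 : ((2 : ℕ) : k) = 0 := by exact_mod_cast h
    rw [CharP.cast_eq_zero_iff k p] at h3
    exact hp2 ((Nat.prime_dvd_prime_iff_eq hp Nat.prime_two).1 h3)
  have hφ0 : φ 0 = 0 := by
    have := hT.pinv.add 0 0
    rw [add_zero] at this
    exact left_eq_add.1 this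
  refine sub h2 (fun f => ∃ g : Sy k, φ (j f) = j g ∧
    ∀ n, (g : Lau k).coeff n ^ p = (f : Lau k).coeff ((p : ℤ) • n)) ?_ ?_ ?_ f ?_
  · refine ⟨0, by rw [map_zero, hφ0], fun n => ?_⟩
    show (0 : k) ^ p = 0
    exact zero_pow hp.ne_zero
  · rintro f1 f2 ⟨g1, h11, h12⟩ ⟨g2, h21, h22⟩
    refine ⟨g1 + g2, by rw [map_add, hT.pinv.add, h11, h21, map_add], fun n => ?_⟩
    show ((g1 : Lau k).coeff n + (g2 : Lau k).coeff n) ^ p =
      (f1 : Lau k).coeff _ + (f2 : Lau k).coeff _
    rw [add_pow_char, h12, h22]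
  · rintro c f1 ⟨g1, h11, h12⟩
    obtain ⟨d, hd⟩ := (PerfectRing.bijective_frobenius (R := k) (p := p)).2 c
    have hd' : d ^ p = c := hd
    subst hd'
    refine ⟨d • g1, ?_, fun n => ?_⟩
    · rw [map_smul, map_smul, ← h11, Algebra.smul_def, Algebra.smul_def, map_pow,
        hT.pinv.pow_mul]
    · show (d * (g1 : Lau k).coeff n) ^ p = d ^ p * (f1 : Lau k).coeff _
      rw [mul_pow, h12]
  · intro m _
    by_cases hm : ∃ d, m = (p : ℤ) • d
    · obtain ⟨d, rfl⟩ := hm
      refine ⟨es k d, hT.tor d, fun n => ?_⟩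
      show (ee k d).coeff n ^ p = (ee k ((p : ℤ) • d)).coeff ((p : ℤ) • n)
      have hpz : (p : ℤ) ≠ 0 := by exact_mod_cast hp.ne_zero
      have hi : ∀ x y : ℤ × ℤ, ((p : ℤ) • x = (p : ℤ) • y) = (x = y) := fun x y =>
        propext (smul_right_inj hpz)
      rw [ee_coeff, ee_coeff, add_pow_char, ← smul_neg]
      simp only [hi]
      congr 1 <;> split_ifs <;> simp [hp.ne_zero]
    · push Not at hm
      refine ⟨0, by rw [hT.tor0 m hm, map_zero], fun n => ?_⟩
      show (0 : k) ^ p = (ee k m).coeff ((p : ℤ) • n)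
      rw [ee_coeff, if_neg (hm n), if_neg, add_zero, zero_pow hp.ne_zero]
      intro h
      apply hm (-n)
      rw [smul_neg, ← h, neg_neg]

/-! ## The degree -/

section
variable {k : Type} [Field k] (l : ℤ × ℤ →+ ℤ)

/-- all exponents of `f` have weight at most `n` -/
def Le (f : Lau k) (n : ℤ) : Prop := ∀ m, f.coeff m ≠ 0 → l m ≤ n

/-- the maximal weight of the exponents of `f` is `n` -/
def Is (f : Lau k) (n : ℤ) : Prop := Le l f n ∧ ∃ m, f.coeff m ≠ 0 ∧ l m = n

variable {l}

theorem is_unique {f : Lau k} {n n' : ℤ} (h : Is l f n) (h' : Is l f n') : n = n' := by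
  obtain ⟨h1, m, h2, h3⟩ := h
  obtain ⟨h1', m', h2', h3'⟩ := h'
  have a1 := h1 m' h2'
  have a2 := h1' m h2
  omega

theorem is_ne {f : Lau k} {n : ℤ} (h : Is l f n) : f ≠ 0 := by
  rintro rfl
  obtain ⟨-, m, h2, -⟩ := h
  exact h2 rfl

theorem is_exists {f : Lau k} (hf : f ≠ 0) : ∃ n, Is l f n := by
  classical
  have hs : f.coeff.support.Nonempty := by
    rw [Finsupp.support_nonempty_iff]
    intro h
    exact hf (AddMonoidAlgebra.coeff_inj.1 h)
  obtain ⟨m, hm, hm'⟩ := f.coeff.support.exists_max_image (fun m => l m) hs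
  exact ⟨l m, fun c hc => hm' c (Finsupp.mem_support_iff.2 hc), m,
    Finsupp.mem_support_iff.1 hm, rfl⟩

theorem le_mul {f g : Lau k} {n m : ℤ} (hf : Le l f n) (hg : Le l g m) : Le l (f * g) (n + m) := by
  classical
  intro c hc
  have h1 := AddMonoidAlgebra.support_coeff_mul_subset f g (Finsupp.mem_support_iff.2 hc)
  obtain ⟨a, ha, b, hb, rfl⟩ := Finset.mem_add.1 h1
  rw [map_add]
  exact add_le_add (hf a (Finsupp.mem_support_iff.1 ha)) (hg b (Finsupp.mem_support_iff.1 hb))

theorem le_add {f g : Lau k} {n : ℤ} (hf : Le l f n) (hg : Le l g n) : Le l (f + g) n := by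
  intro c hc
  rw [AddMonoidAlgebra.coeff_add, Finsupp.add_apply] at hc
  by_cases h : f.coeff c = 0
  · rw [h, zero_add] at hc
    exact hg c hc
  · exact hf c h

theorem le_mono {f : Lau k} {n m : ℤ} (hf : Le l f n) (hnm : n ≤ m) : Le l f m :=
  fun c hc => (hf c hc).trans hnm

/-- the terms of weight `n` -/
noncomputable def prt (l : ℤ × ℤ →+ ℤ) (n : ℤ) (f : Lau k) : Lau k :=
  AddMonoidAlgebra.ofCoeff (f.coeff.filter fun m => l m = n)

theorem prt_coeff (n : ℤ) (f : Lau k) (m : ℤ × ℤ) :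
    (prt l n f).coeff m = if l m = n then f.coeff m else 0 := by
  classical
  unfold prt
  rw [AddMonoidAlgebra.coeff_ofCoeff, Finsupp.filter_apply]

theorem prt_sub {f : Lau k} {n : ℤ} (hf : Le l f n) : Le l (f - prt l n f) (n - 1) := by
  intro c hc
  rw [AddMonoidAlgebra.coeff_sub, Finsupp.sub_apply, prt_coeff] at hc
  by_cases h : l c = n
  · rw [if_pos h, sub_self] at hc
    exact absurd rfl hc
  · rw [if_neg h, sub_zero] at hc
    have := hf c hc
    omega

theorem is_mul {f g : Lau k} {n m : ℤ} (hf : Is l f n) (hg : Is l g m) : Is l (f * g) (n + m) := by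
  refine ⟨le_mul hf.1 hg.1, ?_⟩
  have h1 : prt l n f ≠ 0 := by
    obtain ⟨-, c, h2, h3⟩ := hf
    intro h
    have h4 := prt_coeff (l := l) n f c
    rw [h, if_pos h3] at h4
    exact h2 h4.symm
  have h2 : prt l m g ≠ 0 := by
    obtain ⟨-, c, h2, h3⟩ := hg
    intro h
    have h4 := prt_coeff (l := l) m g c
    rw [h, if_pos h3] at h4
    exact h2 h4.symm
  have h3 : prt l n f * prt l m g ≠ 0 := mul_ne_zero h1 h2
  obtain ⟨n', hn'⟩ := is_exists (l := l) h3
  obtain ⟨hle, c, hc, hcn⟩ := hn'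
  -- the exponent `c` has weight `n + m`
  have h4 : l c = n + m := by
    classical
    have h5 := AddMonoidAlgebra.support_coeff_mul_subset _ _ (Finsupp.mem_support_iff.2 hc)
    obtain ⟨a, ha, b, hb, rfl⟩ := Finset.mem_add.1 h5
    rw [Finsupp.mem_support_iff, prt_coeff] at ha hb
    rw [map_add]
    by_cases ha' : l a = n
    · by_cases hb' : l b = m
      · rw [ha', hb']
      · rw [if_neg hb'] at hb
        exact absurd rfl hb
    · rw [if_neg ha'] at ha
      exact absurd rfl ha
  refine ⟨c, ?_, h4⟩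
  have h5 : f * g = prt l n f * prt l m g +
      ((f - prt l n f) * g + prt l n f * (g - prt l m g)) := by ring
  have h6 : Le l (prt l n f) n := by
    intro c hc
    rw [prt_coeff] at hc
    by_cases h : l c = n
    · exact h.le
    · rw [if_neg h] at hc
      exact absurd rfl hc
  have h7 : Le l ((f - prt l n f) * g + prt l n f * (g - prt l m g)) (n + m - 1) :=
    le_add (le_mono (le_mul (prt_sub hf.1) hg.1) (by omega))
      (le_mono (le_mul h6 (prt_sub hg.1)) (by omega))
  have h8 : ((f - prt l n f) * g + prt l n f * (g - prt l m g)).coeff c = 0 := by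
    by_contra h
    have := h7 c h
    omega
  rw [h5, AddMonoidAlgebra.coeff_add, Finsupp.add_apply, h8, add_zero]
  exact hc

theorem is_pow {f : Lau k} {n : ℤ} (hf : Is l f n) (e : ℕ) : Is l (f ^ e) (e * n) := by
  induction e with
  | zero =>
    rw [pow_zero, Nat.cast_zero, zero_mul]
    refine ⟨fun m hm => ?_, 0, ?_, map_zero l⟩
    · rw [AddMonoidAlgebra.one_def, AddMonoidAlgebra.coeff_single, Finsupp.single_apply] at hm
      by_cases h : (0 : ℤ × ℤ) = m
      · rw [← h, map_zero]
      · rw [if_neg h] at hm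
        exact absurd rfl hm
    · rw [AddMonoidAlgebra.one_def, AddMonoidAlgebra.coeff_single, Finsupp.single_eq_same]
      exact one_ne_zero
  | succ e ih =>
    have := is_mul ih hf
    rw [← pow_succ] at this
    rw [Nat.cast_succ, add_mul, one_mul]
    exact this

theorem is_alg {c : k} (hc : c ≠ 0) : Is l (algebraMap k (Lau k) c) 0 := by
  have h1 : algebraMap k (Lau k) c = AddMonoidAlgebra.single 0 c := rfl
  rw [h1]
  refine ⟨fun m hm => ?_, 0, ?_, map_zero l⟩
  · rw [AddMonoidAlgebra.coeff_single, Finsupp.single_apply] at hm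
    by_cases h : (0 : ℤ × ℤ) = m
    · rw [← h, map_zero]
    · rw [if_neg h] at hm
      exact absurd rfl hm
  · rw [AddMonoidAlgebra.coeff_single, Finsupp.single_eq_same]
    exact hc

theorem is_one : Is l (1 : Lau k) 0 := by
  have := is_alg (l := l) (one_ne_zero : (1 : k) ≠ 0)
  rwa [map_one] at this

theorem is_ee (h2 : (2 : k) ≠ 0) (c : ℤ × ℤ) : Is l (ee k c) |l c| := by
  refine ⟨fun m hm => ?_, ?_⟩
  · rw [ee_coeff] at hm
    by_cases h : c = m
    · rw [← h]
      exact le_abs_self _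
    · by_cases h' : -c = m
      · rw [← h', map_neg]
        exact neg_le_abs _
      · rw [if_neg h, if_neg h', add_zero] at hm
        exact absurd rfl hm
  · have h3 : (ee k c).coeff c ≠ 0 := by
      rw [ee_coeff, if_pos rfl]
      split_ifs
      · rw [one_add_one_eq_two]
        exact h2
      · rw [add_zero]
        exact one_ne_zero
    have h4 : (ee k c).coeff (-c) ≠ 0 := by
      rw [ee_coeff, if_pos rfl]
      split_ifs
      · rw [one_add_one_eq_two]
        exact h2
      · rw [zero_add]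
        exact one_ne_zero
    rcases abs_choice (l c) with h | h
    · exact ⟨c, h3, h.symm⟩
    · exact ⟨-c, h4, by rw [map_neg, h]⟩

end

/-! ## The valuation -/

open Classical in
/-- the degree (`0` for `f = 0`) -/
noncomputable def dg {k : Type} [Field k] (l : ℤ × ℤ →+ ℤ) (f : Lau k) : ℤ :=
  if h : ∃ n, Is l f n then h.choose else 0

theorem dg_eq {k : Type} [Field k] {l : ℤ × ℤ →+ ℤ} {f : Lau k} {n : ℤ} (h : Is l f n) :
    dg l f = n := by
  have h1 : ∃ n, Is l f n := ⟨n, h⟩
  unfold dg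
  rw [dif_pos h1]
  exact is_unique h1.choose_spec h

theorem dg_is {k : Type} [Field k] {l : ℤ × ℤ →+ ℤ} {f : Lau k} (h : f ≠ 0) :
    Is l f (dg l f) := by
  obtain ⟨n, hn⟩ := is_exists (l := l) h
  rw [dg_eq hn]
  exact hn

section
variable {k κ : Type} [Field k] [Field κ] [Algebra k κ] (j : Sy k →ₐ[k] κ)
  (gen : ∀ f : κ, ∃ a b : Sy k, j b ≠ 0 ∧ f * j b = j a) (l : ℤ × ℤ →+ ℤ)

open Classical in
/-- the valuation -/
noncomputable def va (x : κ) : ℤ :=
  if x = 0 then 0 else dg l ((gen x).choose_spec.choose : Lau k) - dg l ((gen x).choose : Lau k)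

variable {j gen l}

theorem ne_of_j {f : Sy k} (h : j f ≠ 0) : (f : Lau k) ≠ 0 := by
  intro h1
  apply h
  have : f = 0 := Subtype.ext h1
  rw [this, map_zero]

theorem va_eq (inj : Function.Injective j) {x : κ} (hx : x ≠ 0) {a b : Sy k} (hb : j b ≠ 0)
    (h : x * j b = j a) : va j gen l x = dg l (b : Lau k) - dg l (a : Lau k) := by
  obtain ⟨h1, h2⟩ := (gen x).choose_spec.choose_spec
  unfold va
  rw [if_neg hx]
  set a' := (gen x).choose
  set b' := (gen x).choose_spec.choose
  have ha : j a ≠ 0 := by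
    rw [← h]
    exact mul_ne_zero hx hb
  have ha' : j a' ≠ 0 := by
    rw [← h2]
    exact mul_ne_zero hx h1
  have h3 : a * b' = a' * b := by
    apply inj
    rw [map_mul, map_mul, ← h, ← h2]
    ring
  have h4 : (a : Lau k) * (b' : Lau k) = (a' : Lau k) * (b : Lau k) := congrArg Subtype.val h3
  have h5 := is_mul (dg_is (l := l) (ne_of_j ha)) (dg_is (l := l) (ne_of_j h1))
  have h6 := is_mul (dg_is (l := l) (ne_of_j ha')) (dg_is (l := l) (ne_of_j hb))
  rw [h4] at h5
  have h7 := is_unique h5 h6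
  linarith

theorem va_j (inj : Function.Injective j) {f : Sy k} (hf : f ≠ 0) :
    va j gen l (j f) = - dg l (f : Lau k) := by
  have h1 : j f ≠ 0 := (map_ne_zero_iff j inj).2 hf
  rw [va_eq inj h1 (a := f) (b := 1) (by rw [map_one]; exact one_ne_zero)
    (by rw [map_one, mul_one])]
  have : ((1 : Sy k) : Lau k) = 1 := rfl
  rw [this, dg_eq is_one, zero_sub]

theorem va_isv (inj : Function.Injective j) : IsV (va j gen l) := by
  constructor
  · unfold va
    rw [if_pos rfl]
  · intro x y hx hy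
    obtain ⟨a, b, hb, hab⟩ := gen x
    obtain ⟨c, d, hd, hcd⟩ := gen y
    have ha : j a ≠ 0 := by
      rw [← hab]
      exact mul_ne_zero hx hb
    have hc : j c ≠ 0 := by
      rw [← hcd]
      exact mul_ne_zero hy hd
    rw [va_eq inj hx hb hab, va_eq inj hy hd hcd,
      va_eq inj (mul_ne_zero hx hy) (a := a * c) (b := b * d)
        (by rw [map_mul]; exact mul_ne_zero hb hd)
        (by rw [map_mul, map_mul, ← hab, ← hcd]; ring)]
    have e1 : ((b * d : Sy k) : Lau k) = (b : Lau k) * (d : Lau k) := rfl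
    have e2 : ((a * c : Sy k) : Lau k) = (a : Lau k) * (c : Lau k) := rfl
    rw [e1, e2, dg_eq (is_mul (dg_is (l := l) (ne_of_j hb)) (dg_is (l := l) (ne_of_j hd))),
      dg_eq (is_mul (dg_is (l := l) (ne_of_j ha)) (dg_is (l := l) (ne_of_j hc)))]
    ring
  · intro x y hx hy hxy
    obtain ⟨a, b, hb, hab⟩ := gen x
    obtain ⟨c, d, hd, hcd⟩ := gen y
    have ha : j a ≠ 0 := by
      rw [← hab]
      exact mul_ne_zero hx hb
    have hc : j c ≠ 0 := by
      rw [← hcd]
      exact mul_ne_zero hy hd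
    have hbd : j (b * d) ≠ 0 := by
      rw [map_mul]
      exact mul_ne_zero hb hd
    have hs : (x + y) * j (b * d) = j (a * d + c * b) := by
      rw [map_mul, map_add, map_mul, map_mul, ← hab, ← hcd]
      ring
    have hac : j (a * d + c * b) ≠ 0 := by
      rw [← hs]
      exact mul_ne_zero hxy hbd
    rw [va_eq inj hx hb hab, va_eq inj hy hd hcd, va_eq inj hxy hbd hs]
    have e1 : ((b * d : Sy k) : Lau k) = (b : Lau k) * (d : Lau k) := rfl
    have e2 : ((a * d + c * b : Sy k) : Lau k) =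
      (a : Lau k) * (d : Lau k) + (c : Lau k) * (b : Lau k) := rfl
    have hA := dg_is (l := l) (ne_of_j ha)
    have hB := dg_is (l := l) (ne_of_j hb)
    have hC := dg_is (l := l) (ne_of_j hc)
    have hD := dg_is (l := l) (ne_of_j hd)
    have hS := dg_is (l := l) (ne_of_j hac)
    rw [e2] at hS
    rw [e1, e2, dg_eq (is_mul hB hD)]
    obtain ⟨hS1, m, hm, hml⟩ := hS
    set M := max (dg l (a : Lau k) + dg l (d : Lau k)) (dg l (c : Lau k) + dg l (b : Lau k))
    have h1 : Le l ((a : Lau k) * (d : Lau k) + (c : Lau k) * (b : Lau k)) M :=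
      le_add (le_mono (le_mul hA.1 hD.1) (le_max_left _ _))
        (le_mono (le_mul hC.1 hB.1) (le_max_right _ _))
    have h2 := h1 m hm
    rw [hml] at h2
    rcases le_max_iff.1 h2 with h3 | h3
    · exact (min_le_left _ _).trans (by linarith)
    · exact (min_le_right _ _).trans (by linarith)

end

theorem p_QE : S_QE := by
  intro p _ hp2 k κ _ _ _ _ _ j φ hT a ha
  classical
  have hp : p.Prime := Fact.out
  have h2 : (2 : k) ≠ 0 := by
    intro h
    have h3 : ((2 : ℕ) : k) = 0 := by exact_mod_cast h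
    rw [CharP.cast_eq_zero_iff k p] at h3
    exact hp2 ((Nat.prime_dvd_prime_iff_eq hp Nat.prime_two).1 h3)
  -- the linear form
  set g : ℤ := (Int.gcd a.1 a.2 : ℤ) with hg
  have hg0 : 0 < g := by
    rw [hg]
    have : Int.gcd a.1 a.2 ≠ 0 := by
      intro h
      rw [Int.gcd_eq_zero_iff] at h
      exact ha (Prod.ext h.1 h.2)
    omega
  obtain ⟨a1, h1⟩ : g ∣ a.1 := Int.gcd_dvd_left _ _
  obtain ⟨a2, h1'⟩ : g ∣ a.2 := Int.gcd_dvd_right _ _
  obtain ⟨s, t, hst⟩ : ∃ s t : ℤ, a1 * t - a2 * s = 1 := by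
    have h3 := Int.gcd_eq_gcd_ab a.1 a.2
    refine ⟨- Int.gcdB a.1 a.2, Int.gcdA a.1 a.2, ?_⟩
    have h4 : g * (a1 * Int.gcdA a.1 a.2 - a2 * -Int.gcdB a.1 a.2) = g * 1 := by
      have h5 : g * (a1 * Int.gcdA a.1 a.2 - a2 * -Int.gcdB a.1 a.2) =
        (g * a1) * Int.gcdA a.1 a.2 + (g * a2) * Int.gcdB a.1 a.2 := by ring
      rw [h5, ← h1, ← h1', mul_one]
      exact h3.symm
    exact mul_left_cancel₀ hg0.ne' h4
  let l : ℤ × ℤ →+ ℤ :=
    { toFun := fun c => a1 * c.2 - a2 * c.1
      map_zero' := by simp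
      map_add' := fun c d => by
        show a1 * (c.2 + d.2) - a2 * (c.1 + d.1) = _
        ring }
  have hl : ∀ c, l c = a1 * c.2 - a2 * c.1 := fun c => rfl
  have hla : l a = 0 := by
    rw [hl, h1, h1']
    ring
  set v := va j hT.gen l with hv
  have hisv : IsV v := va_isv hT.inj
  have hes : ∀ c, es k c ≠ 0 := by
    intro c h
    exact is_ne (is_ee (l := l) h2 c) (congrArg Subtype.val h)
  have hves : ∀ c, v (j (es k c)) = - |l c| := by
    intro c
    rw [hv, va_j hT.inj (hes c)]
    rw [show ((es k c : Sy k) : Lau k) = ee k c from rfl, dg_eq (is_ee h2 c)]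
  refine ⟨v, ⟨hisv, ?_, ?_⟩, ?_, ?_, ?_, ?_⟩
  · -- trivial on the constants
    intro c
    by_cases hc : c = 0
    · rw [hc, map_zero, hisv.zero]
    · have h3 : algebraMap k κ c = j (algebraMap k (Sy k) c) := (j.commutes c).symm
      have h4 : algebraMap k (Sy k) c ≠ 0 := by
        intro h
        exact is_ne (is_alg (l := l) hc) (congrArg Subtype.val h)
      rw [h3, hv, va_j hT.inj h4]
      rw [show ((algebraMap k (Sy k) c : Sy k) : Lau k) = algebraMap k (Lau k) c from rfl,
        dg_eq (is_alg hc), neg_zero]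
  · -- uniformiser
    have h3 : j (es k (s, t)) ≠ 0 := (map_ne_zero_iff j hT.inj).2 (hes _)
    refine ⟨(j (es k (s, t)))⁻¹, inv_ne_zero h3, ?_⟩
    have h4 := hisv.mul _ _ h3 (inv_ne_zero h3)
    rw [mul_inv_cancel₀ h3, hves] at h4
    have h5 : v 1 = 0 := by
      have := hisv.mul 1 1 one_ne_zero one_ne_zero
      rw [mul_one] at this
      linarith
    rw [h5, hl] at h4
    simp only [hst, abs_one] at h4
    linarith
  · -- compatibility
    intro f hφf
    have hφ0 : φ 0 = 0 := by
      have := hT.pinv.add 0 0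
      rw [add_zero] at this
      exact left_eq_add.1 this
    have hf : f ≠ 0 := by
      rintro rfl
      exact hφf hφ0
    obtain ⟨x, b, hb, hxb⟩ := hT.gen f
    have hx : j x ≠ 0 := by
      rw [← hxb]
      exact mul_ne_zero hf hb
    set F : Sy k := x * b ^ (p - 1) with hF
    have h3 : f = ((j b)⁻¹) ^ p * j F := by
      rw [hF, map_mul, map_pow, ← hxb]
      have : (j b) ^ p = j b * j b ^ (p - 1) := by
        rw [← pow_succ', Nat.sub_add_cancel hp.one_le]
      rw [inv_pow, this]
      field_simp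
    obtain ⟨G, hG1, hG2⟩ := phi p hp2 k κ j φ hT F
    have h4 : φ f = (j b)⁻¹ * j G := by
      rw [← hG1, ← hT.pinv.pow_mul, ← h3]
    have hG0 : j G ≠ 0 := by
      intro h
      rw [h, mul_zero] at h4
      exact hφf h4
    have h5 : v (φ f) = dg l (b : Lau k) - dg l (G : Lau k) := by
      refine va_eq hT.inj hφf hb ?_
      rw [h4]
      field_simp
    have h6 : v f = dg l (b : Lau k) - dg l (x : Lau k) := va_eq hT.inj hf hb hxb
    have hX := dg_is (l := l) (ne_of_j hx)
    have hB := dg_is (l := l) (ne_of_j hb)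
    have hGG := dg_is (l := l) (ne_of_j hG0)
    have hFF := is_mul hX (is_pow hB (p - 1))
    obtain ⟨hG3, m, hm, hml⟩ := hGG
    have h7 : (F : Lau k).coeff ((p : ℤ) • m) ≠ 0 := by
      rw [← hG2]
      exact pow_ne_zero _ hm
    have h8 := hFF.1 ((p : ℤ) • m) h7
    rw [map_zsmul, hml, smul_eq_mul] at h8
    rw [h5, h6, nsmul_eq_mul]
    have h9 : ((p - 1 : ℕ) : ℤ) = (p : ℤ) - 1 := by
      have := hp.one_le
      push_cast [this]
      ring
    rw [h9] at h8
    linarith
  · -- trivial on `k(e_a)`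
    intro P hP0
    clear hP0
    have h4 : Le l ((aeval (es k a) P : Sy k) : Lau k) 0 := by
      induction P using Polynomial.induction_on' with
      | add P Q hP hQ =>
        rw [map_add]
        exact le_add hP hQ
      | monomial n c =>
        rw [aeval_monomial]
        have h5 := is_pow (is_ee (l := l) h2 a) n
        rw [hla, abs_zero, mul_zero] at h5
        have h6 : Le l (algebraMap k (Lau k) c) 0 := by
          by_cases hc : c = 0
          · rw [hc, map_zero]
            intro m hm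
            exact absurd rfl hm
          · exact (is_alg hc).1
        exact le_mul h6 h5.1
    by_cases h3 : aeval (es k a) P = 0
    · have h4 : aeval (j (es k a)) P = 0 := by
        rw [aeval_algHom_apply, h3, map_zero]
      rw [h4, hisv.zero]
    · rw [aeval_algHom_apply, hv, va_j hT.inj h3]
      have h5 := dg_is (l := l) (f := ((aeval (es k a) P : Sy k) : Lau k))
        (fun h => h3 (Subtype.ext h))
      obtain ⟨-, m, hm, hml⟩ := h5
      have h6 := h4 m hm
      have h7 := h4 (-m) (by rw [sym]; exact hm)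
      rw [map_neg] at h7
      rw [← hml]
      omega
  · -- nonpositive on `k[R]`
    intro f hf
    rw [hv, va_j hT.inj hf]
    have h5 := dg_is (l := l) (f := (f : Lau k)) (fun h => hf (Subtype.ext h))
    obtain ⟨h6, m, hm, hml⟩ := h5
    have h7 := h6 (-m) (by rw [sym]; exact hm)
    rw [map_neg] at h7
    omega
  · -- the values of `e_c`
    intro c
    rw [hves, hl]
    rw [show a.1 * c.2 - a.2 * c.1 = g * a1 * c.2 - g * a2 * c.1 by rw [← h1, ← h1']]
    have h3 : g * a1 * c.2 - g * a2 * c.1 = (a1 * c.2 - a2 * c.1) * g := by ring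
    rw [h3, abs_mul, abs_of_pos hg0]
    ring

end QE

end Pool.Agent.F2W
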