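import Pool.Agent.Lib.MP_305fdd_al.F2.Core
import Pool.Agent.Lib.MP_305fdd_al.F2.N.QE
import Pool.Agent.Lib.MP_305fdd_al.F2.N.KK
import Pool.Agent.Lib.MP_305fdd_al.F2.W.O1
import Pool.Agent.Lib.MP_305fdd_al.F2.W.Z5
import Pool.Agent.Lib.MP_305fdd_al.F2.UL.Stm
import Pool.Agent.Lib.MP_305fdd_al.F2.PF.DefsB

/-!
# MP_305fdd_al, F_2: the facts at `R = ord_R` in `F2PF.LocF` (helper70)

`Core.Rinz`, `Core.Rdv`, `Core.Rnn`, `Core.Rpos`, `Core.R9`, `Core.hr` (the hypothesis `HR` of section UL), `Core.R7e`.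
-/

set_option autoImplicit false

namespace Pool.Agent.F2

open Pool.Agent.F2Ch Pool.Agent.F2W Pool.Agent.F2RF

namespace Core

variable {p : ℕ} [Fact p.Prime] {k K Λ : Type} [Field k] [CharP k p] [IsAlgClosed k]
  [Field K] [Algebra k K] [Group Λ] (C : Core p k K Λ)

theorem RR_def (f : K) : C.RR f = (C.R f : ℝ) := rfl

/-- `Rinz` -/
theorem Rinz : InZ k p C.φ C.RR :=
  KK.map_inz (Int.castAddHom ℝ) (fun _ _ h => Int.cast_le.2 h) C.R_inz

/-- `Rdv` -/
theorem Rdv : F2PF.Dv C.RR :=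
  ⟨1, one_pos, fun f _ => ⟨C.R f, by rw [RR_def, zsmul_eq_mul, mul_one]⟩⟩

/-- `Rnn` -/
theorem Rnn (f : K) (hf : f ∈ F2PF.Br k C.t) (_ : f ≠ 0) : 0 ≤ C.RR f := by
  rw [C.Br_eq] at hf
  have := C.R_nn ⟨f, hf⟩
  rw [RR_def]
  exact_mod_cast this

/-- `Rpos` -/
theorem Rpos : ∃ j, 0 < C.RR (C.t j) := by
  refine ⟨C.j0, ?_⟩
  rw [RR_def, C.κ0_t, C.R_κ0, Int.cast_one]
  exact one_pos

theorem res_onto (m : ℤ × ℤ) : ∃ g : C.B, C.res g = ee k m := C.res_surj _ (es k m).2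

/-- (0.3), for arbitrary ordered value groups -/
theorem only_R {Γ : Type} [AddCommGroup Γ] [LinearOrder Γ] [IsOrderedAddMonoid Γ] (v : K → Γ)
    (hv : InZ k p C.φ v) (hnt : ∃ f, v f ≠ 0) (hB : ∀ f ∈ C.B, f ≠ 0 → 0 ≤ v f) :
    0 < v C.κ0 ∧ ∀ f, v f = C.R f • v C.κ0 := by
  have h1 := p_O1 p_Z5 p C.odd k K Γ C.B C.res C.φ C.fra C.res_sy C.res_onto C.κ0 C.κ0_res C.hord
    v hv.isv hv.triv hv.compat hnt (fun f => by
      by_cases hf : (f : K) = 0
      · exact Or.inl hf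
      · exact Or.inr (hB f f.2 hf))
  refine ⟨h1.1, fun f => ?_⟩
  by_cases hf : f = 0
  · rw [hf, hv.isv.zero, C.R_inz.isv.zero, zero_smul]
  · obtain ⟨n, a, b, ha, hb, hab⟩ := C.hord f hf
    rw [h1.2 f n a b hf ha hb hab, C.R_eq f n a b ha hb hab]

/-- `R9` -/
theorem R9 (v : K → ℝ) (hv : InZ k p C.φ v) (hnt : ∃ f, v f ≠ 0)
    (hB : ∀ f ∈ F2PF.Br k C.t, f ≠ 0 → 0 ≤ v f) : F2PF.Pr C.RR v := by
  obtain ⟨h1, h2⟩ := C.only_R v hv hnt (fun f hf => hB f (by rw [C.Br_eq]; exact hf))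
  refine ⟨v C.κ0, h1, fun f => ?_⟩
  rw [h2 f, RR_def, zsmul_eq_mul, mul_comm]

/-- the hypothesis `HR` of section UL -/
theorem hr : F2UL.HR k p C.φ C.t C.j0 := by
  intro v hv hnt hB
  obtain ⟨h1, -⟩ := C.only_R v hv hnt (fun f hf hf0 => by
    obtain ⟨q, rfl⟩ := (C.mem_B f).1 hf
    exact hB q hf0)
  rw [C.κ0_t]
  exact h1

/-- traces of nonzero class have order `0` and residue `e_c` -/
theorem R_T (l : Λ) : C.R (C.T l) = 0 ∧ C.ac (C.T l) = jR k (es k (Multiplicative.toAdd (C.cl l))) := by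
  have h0 : C.res (C.TB l) ≠ 0 := by
    rw [C.res_TB]
    exact QE.is_ne (QE.is_ee (l := (0 : ℤ × ℤ →+ ℤ)) C.two_ne _)
  have h1 : C.R (C.T l) = 0 := by
    refine C.R_eq _ 0 (C.TB l) 1 h0 ?_ ?_
    · rw [map_one]
      exact one_ne_zero
    · rw [zpow_zero, one_mul]
      exact mul_one _
  refine ⟨h1, ?_⟩
  have h2 := C.ac_B (C.TB l) h0
  show C.ac ((C.TB l : C.B) : K) = _
  rw [h2]
  congr 1
  exact Subtype.ext (C.res_TB l)

/-- dependence of classes is the vanishing of the determinant -/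
theorem dep_iff {c a : Multiplicative (ℤ × ℤ)} : Dep c a ↔
    (Multiplicative.toAdd a).1 * (Multiplicative.toAdd c).2 -
      (Multiplicative.toAdd a).2 * (Multiplicative.toAdd c).1 = 0 := by
  constructor
  · rintro ⟨m, n, hmn, h⟩
    have h1 : m • Multiplicative.toAdd c + n • Multiplicative.toAdd a = 0 := by
      have := congrArg Multiplicative.toAdd h
      simpa using this
    have e1 : m * (Multiplicative.toAdd c).1 + n * (Multiplicative.toAdd a).1 = 0 := by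
      simpa using congrArg Prod.fst h1
    have e2 : m * (Multiplicative.toAdd c).2 + n * (Multiplicative.toAdd a).2 = 0 := by
      simpa using congrArg Prod.snd h1
    set c1 := (Multiplicative.toAdd c).1
    set c2 := (Multiplicative.toAdd c).2
    set a1 := (Multiplicative.toAdd a).1
    set a2 := (Multiplicative.toAdd a).2
    rcases hmn with hm | hn
    · have : m * (a1 * c2 - a2 * c1) = 0 := by linear_combination a1 * e2 - a2 * e1
      exact (mul_eq_zero.1 this).resolve_left hm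
    · have : n * (a1 * c2 - a2 * c1) = 0 := by linear_combination c2 * e1 - c1 * e2
      exact (mul_eq_zero.1 this).resolve_left hn
  · intro h
    set c1 := (Multiplicative.toAdd c).1
    set c2 := (Multiplicative.toAdd c).2
    set a1 := (Multiplicative.toAdd a).1
    set a2 := (Multiplicative.toAdd a).2
    have key : ∀ m n : ℤ, (m ≠ 0 ∨ n ≠ 0) → m * c1 + n * a1 = 0 → m * c2 + n * a2 = 0 →
        Dep c a := by
      intro m n hmn e1 e2
      refine ⟨m, n, hmn, ?_⟩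
      apply Multiplicative.toAdd.injective
      have : m • Multiplicative.toAdd c + n • Multiplicative.toAdd a = 0 := by
        refine Prod.ext ?_ ?_
        · simpa using e1
        · simpa using e2
      simpa using this
    by_cases ha1 : a1 = 0
    · by_cases ha2 : a2 = 0
      · exact key 0 1 (Or.inr one_ne_zero) (by rw [ha1]; ring) (by rw [ha2]; ring)
      · exact key a2 (-c2) (Or.inl ha2) (by linear_combination -h) (by ring)
    · exact key a1 (-c1) (Or.inl ha1) (by ring) (by linear_combination h)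

/-- the value of the place of class `a` at a trace -/
theorem place_T {v : KR k → ℤ} {a : Multiplicative (ℤ × ℤ)} (ha : a ≠ 1)
    (hv : ∀ c : ℤ × ℤ, v (jR k (es k c)) *
      (Int.gcd (Multiplicative.toAdd a).1 (Multiplicative.toAdd a).2 : ℤ) =
      - |(Multiplicative.toAdd a).1 * c.2 - (Multiplicative.toAdd a).2 * c.1|) (l : Λ) :
    v (C.ac (C.T l)) = 0 ↔ Dep (C.cl l) a := by
  rw [(C.R_T l).2, dep_iff]
  have h1 := hv (Multiplicative.toAdd (C.cl l))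
  have h2 : (Int.gcd (Multiplicative.toAdd a).1 (Multiplicative.toAdd a).2 : ℤ) ≠ 0 := by
    intro h3
    have h4 : Int.gcd (Multiplicative.toAdd a).1 (Multiplicative.toAdd a).2 = 0 := by
      exact_mod_cast h3
    rw [Int.gcd_eq_zero_iff] at h4
    apply ha
    apply Multiplicative.toAdd.injective
    exact Prod.ext h4.1 h4.2
  constructor
  · intro h3
    rw [h3, zero_mul] at h1
    exact abs_eq_zero.1 (neg_eq_zero.1 h1.symm)
  · intro h3
    rw [h3, abs_zero, neg_zero] at h1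
    exact (mul_eq_zero.1 h1).resolve_right h2

/-- the composite of `ord_R` and a compatible valuation of the residue field, as a flag -/
theorem flag_comp {v : KR k → ℤ} (hv : Plc k v) (hc : Compat p C.φR v) :
    F2PF.Flag k p C.φ C.RR (fun f => (toLex ((C.R f : ℝ), (v (C.ac f) : ℝ)) : ℝ ×ₗ ℝ)) := by
  have h1 := KK.comp p k K (KR k) ℤ C.R C.R_inz.isv C.R_inz.triv 1 ![(C.κ0 : K)]
    (fun f _ => C.R f) C.ac C.R_vb C.ac_ac C.φ C.fra.pinv C.R_inz.compat C.φR C.φR_res ℤ v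
    hv.isv hv.triv hc
  have h2 := KK.map_inz (KK.scl 1 1) (KK.scl_mono one_pos zero_le_one) h1
  have h3 : (fun f => KK.scl 1 1 (toLex (C.R f, v (C.ac f)) : ℤ ×ₗ ℤ)) =
      fun f => (toLex ((C.R f : ℝ), (v (C.ac f) : ℝ)) : ℝ ×ₗ ℝ) := by
    funext f
    show toLex ((1 : ℝ) * (C.R f : ℝ), (1 : ℝ) * (v (C.ac f) : ℝ)) = _
    rw [one_mul, one_mul]
  rw [h3] at h2
  refine ⟨h2, fun f => rfl, ?_⟩
  obtain ⟨π, hπ, hvπ⟩ := hv.unif
  obtain ⟨f, hf, hRf, hacf⟩ := C.ac_ac.surj π hπ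
  refine ⟨f, hf, by rw [RR_def, hRf, Int.cast_zero], ?_⟩
  show ((v (C.ac f) : ℤ) : ℝ) ≠ 0
  rw [hacf, hvπ, Int.cast_one]
  exact one_ne_zero

/-- The flag `V_R` of class `a` at `ord_R`. -/
theorem exists_VR (a : Multiplicative (ℤ × ℤ)) (ha : a ≠ 1) :
    ∃ v : KR k → ℤ, Plc k v ∧ Compat p C.φR v ∧ (∀ f : Sy k, f ≠ 0 → v (jR k f) ≤ 0) ∧
      (∀ P : Polynomial k, P ≠ 0 →
        v (Polynomial.aeval (jR k (es k (Multiplicative.toAdd a))) P) = 0) ∧
      F2PF.Flag k p C.φ C.RR (fun f => (toLex ((C.R f : ℝ), (v (C.ac f) : ℝ)) : ℝ ×ₗ ℝ)) ∧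
      ∀ l, (toLex ((C.R (C.T l) : ℝ), (v (C.ac (C.T l)) : ℝ)) : ℝ ×ₗ ℝ) = 0 ↔
        Dep (C.cl l) a := by
  have ha' : Multiplicative.toAdd a ≠ 0 := by
    intro h
    exact ha (Multiplicative.toAdd.injective h)
  obtain ⟨v, h1, h2, h3, h4, h5⟩ := QE.p_QE p C.odd k (KR k) (jR k) C.φR C.φR_tor
    (Multiplicative.toAdd a) ha'
  refine ⟨v, h1, h2, h4, h3, C.flag_comp h1 h2, fun l => ?_⟩
  rw [← C.place_T ha h5 l]
  constructor
  · intro h
    have h6 : ((v (C.ac (C.T l)) : ℤ) : ℝ) = 0 := congrArg (fun z : ℝ ×ₗ ℝ => (ofLex z).2) h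
    exact_mod_cast h6
  · intro h
    rw [(C.R_T l).1, h, Int.cast_zero]
    rfl

/-- `R7e` -/
theorem R7e (a : Multiplicative (ℤ × ℤ)) (ha : a ≠ 1) :
    ∃ V, F2PF.Flag k p C.φ C.RR V ∧ ∃ z ∈ C.A a, V z = 0 := by
  obtain ⟨v, -, -, -, -, h1, h2⟩ := C.exists_VR a ha
  obtain ⟨l, hl⟩ := C.cl_surj a
  have hd : Dep (C.cl l) a := ⟨1, -1, Or.inl one_ne_zero, by rw [hl]; simp⟩
  exact ⟨_, h1, C.T l, ⟨l, by rw [hl]; exact ha, hd, rfl⟩, (h2 l).2 hd⟩

end Core

end Pool.Agent.F2
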