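import Pool.Agent.Lib.MP_305fdd_al.F2.N.RFa
import Pool.Agent.Lib.MP_305fdd_al.F2.N.Dict
import Pool.Agent.Lib.MP_305fdd_al.F2.W.Z0
import Pool.Agent.Lib.MP_305fdd_al.F2.W.Z1
import Pool.Agent.Lib.MP_305fdd_al.F2.W.Q1
import Pool.Agent.Lib.MP_305fdd_al.F2.W.Q2
import Pool.Agent.Lib.MP_305fdd_al.F2.W.Q
import Pool.Agent.Lib.MP_305fdd_al.F2.PF.P_fstart

/-!
# MP_305fdd_al, F_2: the facts at `R = ord_R` in `F2PF.LocF`, second part (helper70)

`Core.R7u`, `Core.R7f`.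
-/

set_option autoImplicit false
set_option linter.unusedSectionVars false

namespace Pool.Agent.F2

open Pool.Agent.F2Ch Pool.Agent.F2W Pool.Agent.F2RF Polynomial

namespace Core

variable {p : ℕ} [Fact p.Prime] {k K Λ : Type} [Field k] [CharP k p] [IsAlgClosed k]
  [Field K] [Algebra k K] [Group Λ] (C : Core p k K Λ)

/-- Lemma 0: an elliptic trace of nonzero class has a transcendental residue -/
theorem z1 {Γ : Type} [AddCommGroup Γ] [LinearOrder Γ] [IsOrderedAddMonoid Γ] {v : K → Γ}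
    (hv : InZ k p C.φ v) {l : Λ} (hl : C.cl l ≠ 1) (h0 : 0 ≤ v (C.T l)) (P : k[X]) (hP : P ≠ 0) :
    aeval (C.T l) P ≠ 0 ∧ v (aeval (C.T l) P) = 0 :=
  p_Z1 p_Z0 p C.odd k K Γ C.B C.res C.φ C.fra v hv.isv hv.triv hv.compat (C.TB l)
    (Multiplicative.toAdd (C.cl l)) (fun h => hl (Multiplicative.toAdd.injective h))
    (C.res_TB l) (Or.inr h0) P hP

/-- the place of a flag at `ord_R` with an elliptic trace of nonzero class -/
theorem flag_plc {V : K → ℝ ×ₗ ℝ} (hV : F2PF.Flag k p C.φ C.RR V) {l : Λ} (hl : C.cl l ≠ 1)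
    (h0 : V (C.T l) = 0) :
    ∃ (v : KR k → ℤ) (δ b : ℝ), Plc k v ∧ Compat p C.φR v ∧ 0 < δ ∧
      (∀ f, f ≠ 0 → V f = toLex ((C.R f : ℝ), δ * (v (C.ac f) : ℝ) + b * (C.R f : ℝ))) ∧
      ∀ P : k[X], P ≠ 0 → v (aeval (jR k (es k (Multiplicative.toAdd (C.cl l)))) P) = 0 := by
  obtain ⟨v, δ, b, h1, h2, h3, h4, h5⟩ := Dict.exists_plc p C.t C.fracgen C.b0 C.ρ0 C.pb C.φ
    C.fra.pinv C.fra.one C.R C.R_inz ![(C.κ0 : K)] C.κ0_ne C.R_κ0 C.ac C.ac_ac C.φR C.φR_res 1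
    one_pos V hV.inz (fun f => by rw [hV.fst, RR_def, one_mul]) (by
      obtain ⟨f, hf, hf0, hf1⟩ := hV.nt
      rw [RR_def] at hf0
      exact ⟨f, hf, by exact_mod_cast hf0, hf1⟩) (C.T l) (C.z1 hV.inz hl h0.ge)
  refine ⟨v, δ, b, h1, h2, h3, fun f hf => by rw [h4 f hf, one_mul], fun P hP => ?_⟩
  rw [← (C.R_T l).2]
  exact h5 P hP

/-- two dependent nonzero classes have a common nonzero multiple -/
theorem dep_common {a c : Multiplicative (ℤ × ℤ)} (ha : a ≠ 1) (hc : c ≠ 1) (h : Dep c a) :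
    ∃ m n : ℤ, m ≠ 0 ∧ n ≠ 0 ∧ m • Multiplicative.toAdd c = n • Multiplicative.toAdd a := by
  obtain ⟨m, n, hmn, h1⟩ := h
  have h2 : m • Multiplicative.toAdd c + n • Multiplicative.toAdd a = 0 := by
    have := congrArg Multiplicative.toAdd h1
    simpa using this
  have ha' : Multiplicative.toAdd a ≠ 0 := fun h3 => ha (Multiplicative.toAdd.injective h3)
  have hc' : Multiplicative.toAdd c ≠ 0 := fun h3 => hc (Multiplicative.toAdd.injective h3)
  have hm : m ≠ 0 := by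
    rintro rfl
    rw [zero_smul, zero_add] at h2
    rcases smul_eq_zero.1 h2 with h3 | h3
    · rcases hmn with h4 | h4
      · exact h4 rfl
      · exact h4 h3
    · exact ha' h3
  have hn : n ≠ 0 := by
    rintro rfl
    rw [zero_smul, add_zero] at h2
    rcases smul_eq_zero.1 h2 with h3 | h3
    · exact hm h3
    · exact hc' h3
  exact ⟨m, -n, hm, neg_ne_zero.2 hn, by rw [neg_smul]; exact eq_neg_of_add_eq_zero_left h2⟩

/-- `ee (n c)` is a polynomial in `ee c` -/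
theorem cheb (c : ℤ × ℤ) (n : ℤ) : ∃ P : k[X], aeval (es k c) P = es k (n • c) := by
  have hneg : ∀ d : ℤ × ℤ, es k (-d) = es k d := by
    intro d
    apply Subtype.ext
    show ee k (-d) = ee k d
    unfold ee
    rw [neg_neg, add_comm]
  have hmul : ∀ c d : ℤ × ℤ, ee k c * ee k d = ee k (c + d) + ee k (c - d) := by
    intro c d
    unfold ee
    rw [add_mul, mul_add, mul_add, AddMonoidAlgebra.single_mul_single,
      AddMonoidAlgebra.single_mul_single, AddMonoidAlgebra.single_mul_single,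
      AddMonoidAlgebra.single_mul_single, mul_one, ← sub_eq_add_neg, neg_add_eq_sub,
      ← neg_add, ← neg_sub c d]
    abel
  have key : ∀ n : ℕ, (∃ P : k[X], aeval (es k c) P = es k ((n : ℤ) • c)) ∧
      ∃ P : k[X], aeval (es k c) P = es k (((n + 1 : ℕ) : ℤ) • c) := by
    intro n
    induction n with
    | zero =>
      refine ⟨⟨Polynomial.C 2, ?_⟩, ⟨X, ?_⟩⟩
      · apply Subtype.ext
        show ((aeval (es k c) (Polynomial.C 2) : Sy k) : Lau k) = ee k (((0 : ℕ) : ℤ) • c)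
        rw [aeval_C]
        show algebraMap k (Lau k) 2 = _
        rw [Nat.cast_zero, zero_smul]
        unfold ee
        rw [neg_zero, ← AddMonoidAlgebra.one_def, map_ofNat]
        norm_num
      · rw [aeval_X, zero_add, Nat.cast_one, one_smul]
    | succ n ih =>
      obtain ⟨⟨P, hP⟩, ⟨Q, hQ⟩⟩ := ih
      refine ⟨⟨Q, hQ⟩, ⟨Q * X - P, ?_⟩⟩
      rw [map_sub, map_mul, aeval_X, hP, hQ]
      apply Subtype.ext
      show ee k (((n + 1 : ℕ) : ℤ) • c) * ee k c - ee k ((n : ℤ) • c) =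
        ee k (((n + 1 + 1 : ℕ) : ℤ) • c)
      rw [hmul]
      have e1 : ((n + 1 : ℕ) : ℤ) • c + c = ((n + 1 + 1 : ℕ) : ℤ) • c := by
        push_cast
        rw [add_smul (((n : ℤ) + 1)) 1 c, one_smul]
      have e2 : ((n + 1 : ℕ) : ℤ) • c - c = (n : ℤ) • c := by
        push_cast
        rw [add_smul, one_smul, add_sub_cancel_right]
      rw [e1, e2, add_sub_cancel_right]
  obtain ⟨m, rfl | rfl⟩ := n.eq_nat_or_neg
  · exact (key m).1
  · obtain ⟨P, hP⟩ := (key m).1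
    exact ⟨P, by rw [hP, neg_smul, hneg]⟩

/-- `e_c` is transcendental for `c ≠ 0` -/
theorem es_tr (h2 : (2 : k) ≠ 0) {c : ℤ × ℤ} (hc : c ≠ 0) {P : k[X]} (hP : P ≠ 0) :
    aeval (es k c) P ≠ 0 := by
  intro h
  obtain ⟨Q, hQ⟩ := p_Z0 k h2 c hc P hP
  apply hQ
  have h3 : aeval (ee k c) P = 0 := by
    have h4 : ((aeval (es k c) P : Sy k) : Lau k) = aeval (ee k c) P := by
      have := (aeval_algHom_apply (Sy k).val (es k c) P).symm
      exact this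
    rw [← h4, h]
    rfl
  rw [map_mul, h3, zero_mul]
  rfl

/-- triviality on `k(e_c)` implies triviality on `k(e_(n c))` -/
theorem triv_mul (h2 : (2 : k) ≠ 0) {v : KR k → ℤ} {c : ℤ × ℤ} {n : ℤ} (hn : n • c ≠ 0)
    (h : ∀ P : k[X], P ≠ 0 → v (aeval (jR k (es k c)) P) = 0) (P : k[X]) (hP : P ≠ 0) :
    v (aeval (jR k (es k (n • c))) P) = 0 := by
  obtain ⟨T, hT⟩ := cheb (k := k) c n
  have h3 : aeval (jR k (es k (n • c))) P = aeval (jR k (es k c)) (P.comp T) := by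
    rw [← hT, ← aeval_algHom_apply, aeval_comp]
  rw [h3]
  apply h
  intro h4
  apply es_tr h2 hn hP
  rw [← hT, ← aeval_comp, h4, map_zero]

/-- the place of class `a` is unique -/
theorem plc_unique {a : Multiplicative (ℤ × ℤ)} (ha : a ≠ 1) {l l' : Λ} (hl : C.cl l ≠ 1)
    (hl' : C.cl l' ≠ 1) (hd : Dep (C.cl l) a) (hd' : Dep (C.cl l') a) {v v' : KR k → ℤ}
    (hv : Plc k v) (hc : Compat p C.φR v) (hv' : Plc k v') (hc' : Compat p C.φR v')
    (h : ∀ P : k[X], P ≠ 0 → v (aeval (jR k (es k (Multiplicative.toAdd (C.cl l)))) P) = 0)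
    (h' : ∀ P : k[X], P ≠ 0 → v' (aeval (jR k (es k (Multiplicative.toAdd (C.cl l')))) P) = 0) :
    v = v' := by
  obtain ⟨m, n, hm, hn, h1⟩ := dep_common ha hl hd
  obtain ⟨m', n', hm', hn', h1'⟩ := dep_common ha hl' hd'
  have ha' : Multiplicative.toAdd a ≠ 0 := fun h3 => ha (Multiplicative.toAdd.injective h3)
  set b : ℤ × ℤ := (n * n') • Multiplicative.toAdd a with hb
  have hb0 : b ≠ 0 := smul_ne_zero (mul_ne_zero hn hn') ha'
  have e : b = (n' * m) • Multiplicative.toAdd (C.cl l) := by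
    rw [hb, mul_comm n n', mul_smul, ← h1, ← mul_smul]
  have e' : b = (n * m') • Multiplicative.toAdd (C.cl l') := by
    rw [hb, mul_smul, ← h1', ← mul_smul]
  refine p_Q p_Q1 (p_Q2 p_Z0) p_Z0 p C.odd k (KR k) (jR k) C.φR C.φR_tor v v' hv hc hv' hc' b hb0
    ?_ ?_
  · rw [e]
    refine triv_mul C.two_ne ?_ h
    rw [← e]
    exact hb0
  · rw [e']
    refine triv_mul C.two_ne ?_ h'
    rw [← e']
    exact hb0

/-- `R7u` -/
theorem R7u {a : Multiplicative (ℤ × ℤ)} (ha : a ≠ 1) (V V' : K → ℝ ×ₗ ℝ)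
    (hV : F2PF.Flag k p C.φ C.RR V) (hz : ∃ z ∈ C.A a, V z = 0)
    (hV' : F2PF.Flag k p C.φ C.RR V') (hz' : ∃ z ∈ C.A a, V' z = 0) : F2PF.Eqv V V' := by
  obtain ⟨_, ⟨l, hl, hd, rfl⟩, h0⟩ := hz
  obtain ⟨_, ⟨l', hl', hd', rfl⟩, h0'⟩ := hz'
  obtain ⟨v, δ, b, h1, h2, h3, h4, h5⟩ := C.flag_plc hV hl h0
  obtain ⟨v', δ', b', h1', h2', h3', h4', h5'⟩ := C.flag_plc hV' hl' h0'
  have hvv := C.plc_unique ha hl hl' hd hd' h1 h2 h1' h2' h5 h5'
  subst hvv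
  have key : ∀ (δ b : ℝ) (V : K → ℝ ×ₗ ℝ), 0 < δ →
      (∀ f, f ≠ 0 → V f = toLex ((C.R f : ℝ), δ * (v (C.ac f) : ℝ) + b * (C.R f : ℝ))) →
      ∀ f, f ≠ 0 → (0 < V f ↔ 0 < C.R f ∨ C.R f = 0 ∧ 0 < v (C.ac f)) := by
    intro δ b V hδ hV f hf
    rw [hV f hf]
    have e0 : (0 : ℝ ×ₗ ℝ) = toLex ((0 : ℝ), (0 : ℝ)) := rfl
    rw [e0, Prod.Lex.toLex_lt_toLex]
    simp only
    constructor
    · rintro (h | ⟨h, h'⟩)
      · left
        exact_mod_cast h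
      · right
        have hR : C.R f = 0 := by exact_mod_cast h.symm
        refine ⟨hR, ?_⟩
        rw [hR, Int.cast_zero, mul_zero, add_zero] at h'
        have : (0 : ℝ) < (v (C.ac f) : ℝ) := (mul_pos_iff_of_pos_left hδ).1 h'
        exact_mod_cast this
    · rintro (h | ⟨h, h'⟩)
      · left
        exact_mod_cast h
      · right
        rw [h]
        refine ⟨by rw [Int.cast_zero], ?_⟩
        rw [Int.cast_zero, mul_zero, add_zero]
        exact mul_pos hδ (by exact_mod_cast h')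
  intro f
  by_cases hf : f = 0
  · rw [hf, hV.inz.isv.zero, hV'.inz.isv.zero]
  · rw [key δ b V h3 h4 f hf, key δ' b' V' h3' h4' f hf]

/-- a flag of class `a` at `ord_R` is nonpositive on the elements of `B` of order zero -/
theorem flag_nonpos {a : Multiplicative (ℤ × ℤ)} {V : K → ℝ ×ₗ ℝ}
    (hV : F2PF.Flag k p C.φ C.RR V) (hz : ∃ z ∈ C.A a, V z = 0) (f : C.B) (hf : (f : K) ≠ 0)
    (hf0 : C.R f = 0) : F2PF.c2 V f ≤ 0 := by
  obtain ⟨_, ⟨l, hl, hd, rfl⟩, h0⟩ := hz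
  obtain ⟨v, δ, b, h1, h2, h3, h4, h5⟩ := C.flag_plc hV hl h0
  obtain ⟨v', h1', h2', h6, h5', -, -⟩ := C.exists_VR (C.cl l) hl
  have hvv := C.plc_unique (a := C.cl l) hl hl hl ⟨1, -1, Or.inl one_ne_zero, by simp⟩
    ⟨1, -1, Or.inl one_ne_zero, by simp⟩ h1 h2 h1' h2' h5 h5'
  subst hvv
  have hres : C.res f ≠ 0 := by
    intro h7
    have := (C.R_pos f hf).2 h7
    omega
  have h8 : F2PF.c2 V f = δ * (v (C.ac f) : ℝ) := by
    unfold F2PF.c2
    rw [h4 f hf, hf0]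
    show δ * (v (C.ac f) : ℝ) + b * ((0 : ℤ) : ℝ) = _
    rw [Int.cast_zero, mul_zero, add_zero]
  rw [h8, C.ac_B f hres]
  have h9 := h6 ⟨C.res f, C.res_sy f⟩ (fun h => hres (congrArg Subtype.val h))
  exact mul_nonpos_of_nonneg_of_nonpos h3.le (by exact_mod_cast h9)

/-- `R7f` -/
theorem R7f {a : Multiplicative (ℤ × ℤ)} (V : K → ℝ ×ₗ ℝ)
    (hV : F2PF.Flag k p C.φ C.RR V) (hz : ∃ z ∈ C.A a, V z = 0) :
    ∃ μ : ℝ, (-μ, 1) ∈ F2PF.DV (F2PF.Br k C.t) C.RR (F2PF.c2 V) ∧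
      (-μ - 1, 1) ∈ F2PF.DV (F2PF.Br k C.t) C.RR (F2PF.c2 V) := by
  have hB : F2PF.Bs (F2PF.Br k C.t) := by
    rw [C.Br_eq]
    refine ⟨C.B.one_mem, fun a ha b hb => C.B.mul_mem ha hb, fun x => ?_⟩
    obtain ⟨a, b, hb, hab⟩ := C.fra.gen x
    exact ⟨a, a.2, b, b.2, hb, hab⟩
  have hq0 : (C.q : K) ≠ 0 := by
    intro h
    have h1 : C.q = 0 := Subtype.ext h
    have h2 := C.q_res
    rw [h1, map_zero] at h2
    exact zero_ne_one h2
  have hRq : C.R C.q = 0 := by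
    refine C.R_eq _ 0 C.q 1 (by rw [C.q_res]; exact one_ne_zero) (by rw [map_one]; exact one_ne_zero) ?_
    rw [zpow_zero, one_mul]
    exact mul_one _
  obtain ⟨μ, -, h1, h2⟩ := F2PF.p_fstart K (F2PF.Br k C.t) hB C.R (F2PF.c2 V) C.R_inz.isv
    (fun f g hf hg => by
      unfold F2PF.c2
      rw [hV.inz.isv.mul f g hf hg]
      rfl) C.κ0 C.q (by rw [C.Br_eq]; exact C.κ0.2) (by rw [C.Br_eq]; exact C.q.2) C.κ0_ne hq0
    C.R_κ0 hRq
    (fun f hf _ => by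
      rw [C.Br_eq] at hf
      exact C.R_nn ⟨f, hf⟩)
    (fun f hf hf0 hpos => by
      rw [C.Br_eq] at hf ⊢
      obtain ⟨g, hg⟩ := C.q_mul ⟨f, hf⟩ ((C.R_pos ⟨f, hf⟩ hf0).1 hpos)
      exact ⟨g, g.2, congrArg Subtype.val hg⟩)
    (fun g hg hg0 hRg => by
      rw [C.Br_eq] at hg
      exact C.flag_nonpos hV hz ⟨g, hg⟩ hg0 hRg)
  exact ⟨μ, h1, h2⟩

end Core

end Pool.Agent.F2
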