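import Pool.Agent.Lib.MP_305fdd_al.F2.BDefs
import Pool.Agent.Lib.MP_305fdd_al.F2.N.QE
import Pool.Agent.Lib.MP_305fdd_al.F2.W.O1
import Pool.Agent.Lib.MP_305fdd_al.F2.W.Z5
import Pool.Agent.Lib.MP_305fdd_al.F2.Ch.K1
import Pool.Agent.Lib.MP_305fdd_al.F2.PF.DefsB

/-!
# MP_305fdd_al, F_2: the reducible divisor `R` (helper70)

`RR` is the abstract form of the data at the reducible divisor: `B` the trace ring, `res` the restriction to the
reducible locus, `κ0` the uniformiser, `R` the order along the reducible locus.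
-/

set_option autoImplicit false

namespace Pool.Agent.F2W

open Pool.Agent.F2Ch Pool.Agent.F2 Pool.Agent.F2RF Polynomial

/-- the reducible divisor -/
structure RR (p : ℕ) [Fact p.Prime] (k : Type) {K : Type} [Field k] [CharP k p] [PerfectRing k p]
    [Field K] [Algebra k K] (B : Subalgebra k K) (res : B →ₐ[k] Lau k) (κ0 : B) (φ : K → K)
    (R : K → ℤ) : Prop where
  pinv : IsPinv p φ
  one : φ 1 = 1
  kap : res κ0 = 0
  kne : (κ0 : K) ≠ 0
  sy : ∀ f : B, res f ∈ Sy k
  onto : ∀ m, ∃ g : B, res g = ee k m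
  ord : ∀ f : K, f ≠ 0 → ∃ (n : ℤ) (a b : B), res a ≠ 0 ∧ res b ≠ 0 ∧
    f * b = (κ0 : K) ^ n * a
  zero : R 0 = 0
  val : ∀ (f : K) (n : ℤ) (a b : B), f ≠ 0 → res a ≠ 0 → res b ≠ 0 →
    f * b = (κ0 : K) ^ n * a → R f = n
  tor : ∀ f : B, ∃ f' : B, res f' = th p k (res f) ∧ Gt R 0 (φ f - f')

namespace RR

section
variable {p : ℕ} [Fact p.Prime] {k K : Type} [Field k] [CharP k p] [PerfectRing k p]
  [Field K] [Algebra k K] {B : Subalgebra k K} {res : B →ₐ[k] Lau k} {κ0 : B} {φ : K → K}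
  {R : K → ℤ}

theorem bne {a : B} (h : res a ≠ 0) : (a : K) ≠ 0 := by
  intro h1
  apply h
  have : a = 0 := Subtype.ext h1
  rw [this, map_zero]

theorem res_one : res (1 : B) ≠ 0 := by
  rw [map_one]
  exact one_ne_zero

theorem val_B (h : RR p k B res κ0 φ R) {a : B} (ha : res a ≠ 0) : R a = 0 :=
  h.val a 0 a 1 (bne ha) ha res_one (by
    rw [zpow_zero, one_mul]
    exact mul_one _)

theorem val_kap (h : RR p k B res κ0 φ R) : R κ0 = 1 :=
  h.val κ0 1 1 1 h.kne res_one res_one (by rw [zpow_one])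

/-- elements of `B` have nonnegative order -/
theorem ord_B (h : RR p k B res κ0 φ R) {f : B} {n : ℤ} {a b : B} (ha : res a ≠ 0)
    (hfb : (f : K) * b = (κ0 : K) ^ n * a) : 0 ≤ n := by
  by_contra hn
  push Not at hn
  obtain ⟨m, hm⟩ : ∃ m : ℕ, n = - ((m + 1 : ℕ) : ℤ) := ⟨(-n - 1).toNat, by omega⟩
  have h1 : f * b * κ0 ^ (m + 1) = a := by
    apply Subtype.ext
    show (f : K) * b * (κ0 : K) ^ (m + 1) = a
    rw [hfb, hm, zpow_neg, zpow_natCast, mul_right_comm,
      inv_mul_cancel₀ (pow_ne_zero _ h.kne), one_mul]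
  apply ha
  rw [← h1, map_mul, map_pow, h.kap, pow_succ, mul_zero, mul_zero]

theorem nonneg (h : RR p k B res κ0 φ R) (f : B) (hf : (f : K) ≠ 0) : 0 ≤ R f := by
  obtain ⟨n, a, b, ha, hb, hab⟩ := h.ord f hf
  rw [h.val f n a b hf ha hb hab]
  exact h.ord_B ha hab

theorem ge_B (h : RR p k B res κ0 φ R) (f : B) : Ge R 0 (f : K) := by
  by_cases hf : (f : K) = 0
  · exact Or.inl hf
  · exact Or.inr (h.nonneg f hf)

theorem res_eq_zero (h : RR p k B res κ0 φ R) (f : B) : res f = 0 ↔ Gt R 0 (f : K) := by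
  constructor
  · intro hf
    by_cases hf0 : (f : K) = 0
    · exact Or.inl hf0
    · right
      obtain ⟨n, a, b, ha, hb, hab⟩ := h.ord f hf0
      rw [h.val f n a b hf0 ha hb hab]
      have h1 := h.ord_B ha hab
      rcases h1.lt_or_eq with h2 | h2
      · exact h2
      · exfalso
        rw [← h2, zpow_zero, one_mul] at hab
        have h3 : f * b = a := Subtype.ext hab
        apply ha
        rw [← h3, map_mul, hf, zero_mul]
  · rintro (hf | hf)
    · have : f = 0 := Subtype.ext hf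
      rw [this, map_zero]
    · by_contra hne
      rw [h.val_B hne] at hf
      exact lt_irrefl _ hf

theorem isv (h : RR p k B res κ0 φ R) : IsV R := by
  refine ⟨h.zero, ?_, ?_⟩
  · intro f g hf hg
    obtain ⟨n, a, b, ha, hb, hab⟩ := h.ord f hf
    obtain ⟨m, c, d, hc, hd, hcd⟩ := h.ord g hg
    rw [h.val f n a b hf ha hb hab, h.val g m c d hg hc hd hcd]
    refine h.val _ _ (a * c) (b * d) (mul_ne_zero hf hg) ?_ ?_ ?_
    · rw [map_mul]; exact mul_ne_zero ha hc
    · rw [map_mul]; exact mul_ne_zero hb hd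
    · show f * g * ((b : K) * d) = (κ0 : K) ^ (n + m) * ((a : K) * c)
      rw [zpow_add₀ h.kne]
      linear_combination (g * (d : K)) * hab + ((κ0 : K) ^ n * a) * hcd
  · -- first the case `n ≤ m`
    have key : ∀ f g : K, f ≠ 0 → g ≠ 0 → f + g ≠ 0 → R f ≤ R g → R f ≤ R (f + g) := by
      intro f g hf hg hfg hle
      obtain ⟨n, a, b, ha, hb, hab⟩ := h.ord f hf
      obtain ⟨m, c, d, hc, hd, hcd⟩ := h.ord g hg
      rw [h.val f n a b hf ha hb hab, h.val g m c d hg hc hd hcd] at hle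
      obtain ⟨e, he⟩ : ∃ e : ℕ, m = n + e := ⟨(m - n).toNat, by omega⟩
      set s : B := a * d + κ0 ^ e * c * b with hs
      have h1 : (f + g) * ((b : K) * d) = (κ0 : K) ^ n * (s : K) := by
        have h2 : (s : K) = (a : K) * d + (κ0 : K) ^ e * c * b := rfl
        rw [h2]
        have h3 : (κ0 : K) ^ m = (κ0 : K) ^ n * (κ0 : K) ^ e := by
          rw [he, zpow_add₀ h.kne, zpow_natCast]
        rw [h3] at hcd
        linear_combination (d : K) * hab + (b : K) * hcd
      have hs0 : (s : K) ≠ 0 := by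
        intro h2
        rw [h2, mul_zero] at h1
        exact mul_ne_zero hfg (mul_ne_zero (bne hb) (bne hd)) h1
      obtain ⟨l, a', b', ha', hb', hab'⟩ := h.ord s hs0
      have hl := h.ord_B ha' hab'
      have h2 : R (f + g) = n + l := by
        refine h.val _ _ a' (b * d * b') hfg ha' ?_ ?_
        · rw [map_mul, map_mul]
          exact mul_ne_zero (mul_ne_zero hb hd) hb'
        · show (f + g) * ((b : K) * d * b') = (κ0 : K) ^ (n + l) * (a' : K)
          rw [zpow_add₀ h.kne]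
          linear_combination (b' : K) * h1 + (κ0 : K) ^ n * hab'
      rw [h2, h.val f n a b hf ha hb hab]
      omega
    intro f g hf hg hfg
    rcases le_total (R f) (R g) with h1 | h1
    · exact (min_le_left _ _).trans (key f g hf hg hfg h1)
    · rw [add_comm] at hfg ⊢
      exact (min_le_right _ _).trans (key g f hg hf hfg h1)

theorem triv (h : RR p k B res κ0 φ R) : Triv k R := by
  intro c
  by_cases hc : c = 0
  · rw [hc, map_zero, h.zero]
  · have h1 : res (algebraMap k B c) ≠ 0 := by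
      rw [res.commutes]
      intro h2
      exact hc ((FaithfulSMul.algebraMap_injective k (Lau k)) (by rw [h2, map_zero]))
    exact h.val_B h1

theorem zero_phi (h : RR p k B res κ0 φ R) : φ 0 = 0 := by
  have := h.pinv.add 0 0
  rw [add_zero] at this
  exact left_eq_add.1 this

/-- values of `φ` on `B` -/
theorem phi_B (h : RR p k B res κ0 φ R) (f : B) :
    Ge R 0 (φ f) ∧ (res f = 0 → Gt R 0 (φ f)) := by
  obtain ⟨f', hf', hgt⟩ := h.tor f
  have h1 : φ f = (φ f - f') + f' := by ring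
  constructor
  · by_cases h0 : φ f = 0
    · exact Or.inl h0
    right
    by_cases hA : φ f - f' = 0
    · rw [hA, zero_add] at h1
      rw [h1] at h0 ⊢
      exact h.nonneg f' h0
    · have hA' := hgt.resolve_left hA
      by_cases hB : (f' : K) = 0
      · rw [hB, sub_zero] at hA'
        exact hA'.le
      · have h2 := h.isv.add _ _ hA hB (by rw [← h1]; exact h0)
        rw [← h1] at h2
        exact (le_min hA'.le (h.nonneg f' hB)).trans h2
  · intro hf
    rw [hf, map_zero] at hf'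
    have hB' := (h.res_eq_zero f').1 hf'
    by_cases h0 : φ f = 0
    · exact Or.inl h0
    right
    by_cases hA : φ f - f' = 0
    · rw [hA, zero_add] at h1
      rw [h1] at h0 ⊢
      exact hB'.resolve_left h0
    · have hA' := hgt.resolve_left hA
      by_cases hB : (f' : K) = 0
      · rw [hB, sub_zero] at hA'
        exact hA'
      · have h2 := h.isv.add _ _ hA hB (by rw [← h1]; exact h0)
        rw [← h1] at h2
        exact (lt_min hA' (hB'.resolve_left hB)).trans_le h2

theorem compat (h : RR p k B res κ0 φ R) : Compat p φ R := by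
  have hp : p.Prime := Fact.out
  intro f hφf
  have hf : f ≠ 0 := by
    rintro rfl
    exact hφf h.zero_phi
  obtain ⟨n, a, b, ha, hb, hab⟩ := h.ord f hf
  have hpz : (p : ℤ) ≠ 0 := by exact_mod_cast hp.ne_zero
  have hpp : (0 : ℤ) < p := by exact_mod_cast hp.pos
  set q := n / p with hq
  obtain ⟨r, hr⟩ : ∃ r : ℕ, n % p = r := ⟨(n % p).toNat, by
    rw [Int.toNat_of_nonneg (Int.emod_nonneg n hpz)]⟩
  have hrp : (r : ℤ) < p := by
    rw [← hr]
    exact Int.emod_lt_of_pos n hpp
  have hn : n = p * q + r := by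
    rw [← hr, hq]
    exact (Int.mul_ediv_add_emod n p).symm
  have hbK : (b : K) ≠ 0 := bne hb
  set F : B := κ0 ^ r * a * b ^ (p - 1) with hF
  have h3 : f = ((κ0 : K) ^ q * (b : K)⁻¹) ^ p * (F : K) := by
    have h4 : (F : K) = (κ0 : K) ^ r * a * (b : K) ^ (p - 1) := rfl
    have h5 : (b : K) ^ p = b * b ^ (p - 1) := by
      rw [← pow_succ', Nat.sub_add_cancel hp.one_le]
    have h6 : (κ0 : K) ^ n = ((κ0 : K) ^ q) ^ p * (κ0 : K) ^ r := by
      rw [hn, zpow_add₀ h.kne, zpow_natCast, mul_comm (p : ℤ) q, zpow_mul, zpow_natCast]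
    rw [h4, mul_pow, inv_pow, h5]
    rw [h6] at hab
    field_simp
    linear_combination hab
  have h4 : φ f = (κ0 : K) ^ q * (b : K)⁻¹ * φ F := by
    rw [← h.pinv.pow_mul, ← h3]
  have hφF : φ F ≠ 0 := by
    intro h5
    rw [h5, mul_zero] at h4
    exact hφf h4
  have h5 : R (φ f) = q + R (φ F) := by
    rw [h4, h.isv.mul _ _ (mul_ne_zero (zpow_ne_zero _ h.kne) (inv_ne_zero hbK)) hφF,
      h.isv.mul _ _ (zpow_ne_zero _ h.kne) (inv_ne_zero hbK), k1_zpow h.isv h.kne,
      k1_inv h.isv hbK, h.val_B hb, h.val_kap]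
    simp
  rw [h5, h.val f n a b hf ha hb hab, nsmul_eq_mul]
  have h6 := (h.phi_B F).1.resolve_left hφF
  by_cases hr0 : r = 0
  · rw [hn, hr0, mul_add]
    push_cast
    nlinarith
  · have h7 : res F = 0 := by
      rw [hF, map_mul, map_mul, map_pow, h.kap, zero_pow hr0, zero_mul, zero_mul]
    have h8 := ((h.phi_B F).2 h7).resolve_left hφF
    have h9 : (1 : ℤ) ≤ R (φ F) := h8
    rw [hn, mul_add]
    nlinarith

theorem inz (h : RR p k B res κ0 φ R) : InZ k p φ R := ⟨h.isv, h.triv, h.compat⟩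

/-! ## The residue field -/

section resfield
variable {κ : Type} [Field κ] [Algebra k κ] {r : ℕ} {x : Fin r → K} {ac : K → κ}

omit [CharP k p] [PerfectRing k p] [Algebra k K] [Field k] [Algebra k κ] in
theorem lc_zero (R : K → ℤ) (ac : K → κ) : lc R ac 0 (0 : K) = 0 := by
  unfold lc
  rw [if_neg]
  rintro ⟨h1, -⟩
  exact h1 rfl

/-- the residue map on `B` -/
noncomputable def rho (h : RR p k B res κ0 φ R) (hac : IsAC k R x ac) : B →ₐ[k] κ where
  toFun f := lc R ac 0 (f : K)
  map_zero' := by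
    unfold lc
    rw [if_neg]
    rintro ⟨h1, -⟩
    exact h1 rfl
  map_one' := by
    have h1 : ac 1 = 1 := by simpa using hac.alg 1
    show lc R ac 0 ((1 : B) : K) = 1
    unfold lc
    rw [if_pos ⟨bne (res := res) res_one, h.val_B res_one⟩]
    exact h1
  map_add' f g := hac.add 0 f g (h.ge_B f) (h.ge_B g)
  map_mul' f g := by
    show lc R ac 0 ((f : K) * g) = lc R ac 0 (f : K) * lc R ac 0 (g : K)
    unfold lc
    by_cases hf : (f : K) = 0
    · rw [hf, zero_mul]
      rw [if_neg (fun h1 => h1.1 rfl : ¬ ((0 : K) ≠ 0 ∧ R 0 = 0)), zero_mul]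
    by_cases hg : (g : K) = 0
    · rw [hg, mul_zero]
      rw [if_neg (fun h1 => h1.1 rfl : ¬ ((0 : K) ≠ 0 ∧ R 0 = 0)), mul_zero]
    have h1 := h.nonneg f hf
    have h2 := h.nonneg g hg
    have h3 := h.isv.mul _ _ hf hg
    by_cases hf0 : R (f : K) = 0
    · by_cases hg0 : R (g : K) = 0
      · rw [if_pos ⟨mul_ne_zero hf hg, by rw [h3, hf0, hg0, add_zero]⟩, if_pos ⟨hf, hf0⟩,
          if_pos ⟨hg, hg0⟩, hac.mul]
      · rw [if_neg (fun h4 => hg0 (by have := h4.2; omega)), if_neg (fun h4 => hg0 h4.2 :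
          ¬ ((g : K) ≠ 0 ∧ R (g : K) = 0)), mul_zero]
    · rw [if_neg (fun h4 => hf0 (by have := h4.2; omega)), if_neg (fun h4 => hf0 h4.2 :
          ¬ ((f : K) ≠ 0 ∧ R (f : K) = 0)), zero_mul]
  commutes' c := by
    show lc R ac 0 (algebraMap k K c) = algebraMap k κ c
    unfold lc
    by_cases hc : c = 0
    · rw [if_neg, hc, map_zero]
      rintro ⟨h1, -⟩
      exact h1 (by rw [hc, map_zero])
    · rw [if_pos ⟨(map_ne_zero_iff _ (algebraMap k K).injective).2 hc, h.triv c⟩, hac.alg]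

theorem rho_apply (h : RR p k B res κ0 φ R) (hac : IsAC k R x ac) (f : B) :
    h.rho hac f = lc R ac 0 (f : K) := rfl

theorem lc_eq_zero (hac : IsAC k R x ac) {f : K} (hf : Ge R 0 f) :
    lc R ac 0 f = 0 ↔ Gt R 0 f := by
  unfold lc
  constructor
  · intro h1
    by_cases h2 : f = 0
    · exact Or.inl h2
    right
    have h3 := hf.resolve_left h2
    rcases h3.lt_or_eq with h4 | h4
    · exact h4
    · rw [if_pos ⟨h2, h4.symm⟩] at h1
      exact absurd h1 (hac.ne f h2)
  · rintro (h1 | h1)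
    · rw [if_neg (fun h2 => h2.1 h1)]
    · rw [if_neg (fun h2 => h1.ne' h2.2)]

theorem rho_eq_zero (h : RR p k B res κ0 φ R) (hac : IsAC k R x ac) (f : B) :
    h.rho hac f = 0 ↔ res f = 0 := by
  rw [rho_apply, lc_eq_zero hac (h.ge_B f), h.res_eq_zero]

/-- every symmetric Laurent polynomial is a restriction -/
theorem surj_sy (h : RR p k B res κ0 φ R) (s : Sy k) : ∃ f : B, res f = s := by
  have h1 : Sy k ≤ res.range := by
    unfold Sy
    rw [Algebra.adjoin_le_iff]
    rintro _ ⟨c, rfl⟩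
    obtain ⟨g, hg⟩ := h.onto c
    exact ⟨g, hg⟩
  obtain ⟨f, hf⟩ := h1 s.2
  exact ⟨f, hf⟩

theorem rho_congr (h : RR p k B res κ0 φ R) (hac : IsAC k R x ac) {f g : B}
    (hfg : res f = res g) : h.rho hac f = h.rho hac g := by
  rw [← sub_eq_zero, ← map_sub, rho_eq_zero, map_sub, sub_eq_zero]
  exact hfg

/-- the embedding of the symmetric Laurent polynomials in the residue field -/
noncomputable def jj (h : RR p k B res κ0 φ R) (hac : IsAC k R x ac) : Sy k →ₐ[k] κ where
  toFun s := h.rho hac (h.surj_sy s).choose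
  map_zero' := by
    rw [h.rho_eq_zero hac, (h.surj_sy 0).choose_spec]
    rfl
  map_one' := by
    rw [← map_one (h.rho hac)]
    apply h.rho_congr
    rw [(h.surj_sy 1).choose_spec, map_one]
    rfl
  map_add' s t := by
    rw [← map_add (h.rho hac)]
    apply h.rho_congr
    rw [map_add, (h.surj_sy s).choose_spec, (h.surj_sy t).choose_spec,
      (h.surj_sy (s + t)).choose_spec]
    rfl
  map_mul' s t := by
    rw [← map_mul (h.rho hac)]
    apply h.rho_congr
    rw [map_mul, (h.surj_sy s).choose_spec, (h.surj_sy t).choose_spec,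
      (h.surj_sy (s * t)).choose_spec]
    rfl
  commutes' c := by
    rw [← (h.rho hac).commutes]
    apply h.rho_congr
    rw [res.commutes, (h.surj_sy _).choose_spec]
    rfl

theorem jj_res (h : RR p k B res κ0 φ R) (hac : IsAC k R x ac) (f : B) {s : Sy k}
    (hs : (s : Lau k) = res f) : h.jj hac s = lc R ac 0 (f : K) := by
  rw [← h.rho_apply hac]
  apply h.rho_congr
  rw [(h.surj_sy s).choose_spec, hs]

theorem th_ee_mul (c : ℤ × ℤ) : th p k (ee k ((p : ℤ) • c)) = ee k c := by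
  rw [← AddMonoidAlgebra.coeff_inj]
  ext m
  rw [coeff_th, QE.ee_coeff, QE.ee_coeff, map_add]
  have hpz : (p : ℤ) ≠ 0 := by exact_mod_cast (Fact.out : p.Prime).ne_zero
  have hi : ∀ y z : ℤ × ℤ, ((p : ℤ) • y = (p : ℤ) • z) = (y = z) := fun y z =>
    propext (smul_right_inj hpz)
  have h1 : rt p k 1 = 1 := map_one ((frobeniusEquiv k p).symm)
  rw [← smul_neg]
  simp only [hi]
  congr 1 <;> split_ifs <;> simp [h1]

theorem th_ee_zero (c : ℤ × ℤ) (hc : ∀ d : ℤ × ℤ, c ≠ (p : ℤ) • d) : th p k (ee k c) = 0 := by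
  rw [← AddMonoidAlgebra.coeff_inj]
  ext m
  rw [coeff_th, QE.ee_coeff, if_neg (hc m), if_neg, add_zero, map_zero]
  · rfl
  · intro h
    apply hc (-m)
    rw [smul_neg, ← h, neg_neg]

theorem lc_sub (hac : IsAC k R x ac) {f g : K} (hg : Ge R 0 g) (hfg : Gt R 0 (f - g)) :
    lc R ac 0 f = lc R ac 0 g := by
  have h1 : f = (f - g) + g := by ring
  have h2 : Ge R 0 (f - g) := by
    rcases hfg with h | h
    · exact Or.inl h
    · exact Or.inr h.le
  conv_lhs => rw [h1]
  rw [hac.add 0 _ _ h2 hg, (lc_eq_zero hac h2).2 hfg, zero_add]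

/-- the residue field of `R` is the fraction field of the symmetric Laurent polynomials, the residual
map is toric -/
theorem torR (h : RR p k B res κ0 φ R) (hac : IsAC k R x ac) {φb : κ → κ} (hp : IsPinv p φb)
    (h1 : φb 1 = 1) (hb : ∀ f, Ge R 0 f → Ge R 0 (φ f) ∧ lc R ac 0 (φ f) = φb (lc R ac 0 f)) :
    TorR p k (h.jj hac) φb := by
  refine ⟨?_, ?_, hp, h1, ?_, ?_⟩
  · rw [injective_iff_map_eq_zero]
    intro s hs
    have h2 : res (h.surj_sy s).choose = 0 := (h.rho_eq_zero hac _).1 hs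
    rw [(h.surj_sy s).choose_spec] at h2
    exact Subtype.ext h2
  · intro z
    by_cases hz : z = 0
    · exact ⟨0, 1, by rw [map_one]; exact one_ne_zero, by rw [hz, map_zero, zero_mul]⟩
    · obtain ⟨f, hf, hRf, hacf⟩ := hac.surj z hz
      obtain ⟨n, a, b, ha, hb', hab⟩ := h.ord f hf
      have hn : n = 0 := by rw [← h.val f n a b hf ha hb' hab, hRf]
      rw [hn, zpow_zero, one_mul] at hab
      have ea := h.jj_res hac a (s := ⟨res a, h.sy a⟩) rfl
      have eb := h.jj_res hac b (s := ⟨res b, h.sy b⟩) rfl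
      have ea' : lc R ac 0 (a : K) = ac a := by
        unfold lc
        rw [if_pos ⟨bne ha, h.val_B ha⟩]
      have eb' : lc R ac 0 (b : K) = ac b := by
        unfold lc
        rw [if_pos ⟨bne hb', h.val_B hb'⟩]
      refine ⟨⟨res a, h.sy a⟩, ⟨res b, h.sy b⟩, ?_, ?_⟩
      · rw [eb, eb']
        exact hac.ne _ (bne hb')
      · rw [ea, eb, ea', eb', ← hab, hac.mul, hacf]
  · intro c
    obtain ⟨f, hf⟩ := h.onto ((p : ℤ) • c)
    obtain ⟨f', hf', hgt⟩ := h.tor f
    rw [hf, th_ee_mul] at hf'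
    rw [h.jj_res hac f (s := es k ((p : ℤ) • c)) hf.symm,
      h.jj_res hac f' (s := es k c) hf'.symm, ← (hb f (h.ge_B f)).2]
    exact lc_sub hac (h.ge_B f') hgt
  · intro c hc
    obtain ⟨f, hf⟩ := h.onto c
    obtain ⟨f', hf', hgt⟩ := h.tor f
    rw [hf, th_ee_zero c hc] at hf'
    rw [h.jj_res hac f (s := es k c) hf.symm, ← (hb f (h.ge_B f)).2,
      lc_sub hac (h.ge_B f') hgt]
    exact (lc_eq_zero hac (h.ge_B f')).2 ((h.res_eq_zero f').1 hf')

end resfield

end

end RR

end Pool.Agent.F2W
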